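import Pool.Agent.H88.AQ.Iface
import Pool.Agent.H88.WS.Grd

/-!
# [H38 AW BF3] `Bf3Stmt` from `Avg3Stmt`, `SwStmt` (W2#, MP_b39724; port of H88/WS/Bf1.lean; complete). File Pool/Agent/H38/AW/Bf3.lean
-/

open scoped NumberField
open H88.A4 Pool.Agent.H67.WA H88.WS H88.AQ

noncomputable section

namespace H38.AW

variable {k M : Type} [Field k] [NumberField k] [Field M] [NumberField M] [Algebra k M]


private theorem cbf_log (C1 ε : ℝ) (h1 : 0 < C1) (hε : 0 < ε) :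
    ∃ C2 : ℝ, 0 < C2 ∧ ∀ L : ℝ, 1 ≤ L → (Real.log L + 3) ^ C1 ≤ C2 * L ^ ε := by
  have hη : 0 < ε / C1 := div_pos hε h1
  refine ⟨(C1 / ε + 3) ^ C1, by positivity, fun L hL => ?_⟩
  have hL0 : 0 < L := by linarith
  have h2 : Real.log L ≤ L ^ (ε / C1) / (ε / C1) := Real.log_le_rpow_div hL0.le hη
  have h3 : 1 ≤ L ^ (ε / C1) := Real.one_le_rpow hL hη.le
  have h4 : Real.log L + 3 ≤ (C1 / ε + 3) * L ^ (ε / C1) := by
    have h5 : L ^ (ε / C1) / (ε / C1) = C1 / ε * L ^ (ε / C1) := by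
      field_simp
    rw [h5] at h2
    nlinarith
  have h5 : 0 ≤ Real.log L + 3 := by
    have := Real.log_nonneg hL
    linarith
  calc (Real.log L + 3) ^ C1 ≤ ((C1 / ε + 3) * L ^ (ε / C1)) ^ C1 := Real.rpow_le_rpow h5 h4 h1.le
    _ = (C1 / ε + 3) ^ C1 * (L ^ (ε / C1)) ^ C1 := Real.mul_rpow (by positivity) (by positivity)
    _ = (C1 / ε + 3) ^ C1 * L ^ ε := by rw [← Real.rpow_mul hL0.le, div_mul_cancel₀ _ h1.ne']

private theorem cbf_pt {x m θ : ℝ} (hm : 0 < m) (hθ : 0 ≤ θ) (h : m ≤ 2 * x) :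
    x ^ (-θ) ≤ 2 ^ θ * m ^ (-θ) := by
  have hx : 0 < x := by linarith
  have h1 : (2 * x) ^ (-θ) ≤ m ^ (-θ) := Real.rpow_le_rpow_of_nonpos hm h (by linarith)
  have h2 : x ^ (-θ) = 2 ^ θ * (2 * x) ^ (-θ) := by
    rw [Real.mul_rpow (by norm_num) hx.le, ← mul_assoc, ← Real.rpow_add (by norm_num), add_neg_cancel,
      Real.rpow_zero, one_mul]
  rw [h2]
  exact mul_le_mul_of_nonneg_left h1 (by positivity)

private theorem cbf_c {C : ℝ} (hC : 1 ≤ C) : C ≤ (2 * C) ^ 2 := by nlinarith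

private theorem cbf_dt {b b' : T3 M} {φ : M →+* ℂ} {B y : ℝ} (hB : 0 ≤ B) (hy : 0 ≤ y)
    (h1 : sz φ b.1 ≤ B) (h2 : sz φ b.2.1 ≤ B) (h3 : sz φ b.2.2 ≤ B) (e1 : sz φ (b'.1 - b.1) ≤ y)
    (e2 : sz φ (b'.2.1 - b.2.1) ≤ y) (e3 : sz φ (b'.2.2 - b.2.2) ≤ y) :
    sz φ (dt b') ≤ sz φ (dt b) + (4 * B * y + 2 * y ^ 2) := by
  have h0 : dt b' = dt b + (b.1 * (b'.2.2 - b.2.2) + (b'.1 - b.1) * b.2.2 +
      (b'.1 - b.1) * (b'.2.2 - b.2.2) - 2 * b.2.1 * (b'.2.1 - b.2.1) - (b'.2.1 - b.2.1) ^ 2) := by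
    unfold dt
    ring
  generalize b'.2.2 - b.2.2 = u3 at h0 e3
  generalize b'.2.1 - b.2.1 = u2 at h0 e2
  generalize b'.1 - b.1 = u1 at h0 e1
  rw [h0]
  refine (sz_add φ _ _).trans ?_
  gcongr
  refine (sz_sub φ _ _).trans ?_
  refine (add_le_add_left (sz_sub φ _ _) _).trans ?_
  refine (add_le_add_left (add_le_add_left (sz_add φ _ _) _) _).trans ?_
  refine (add_le_add_left (add_le_add_left (add_le_add_left (sz_add φ _ _) _) _) _).trans ?_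
  rw [sz_mul, sz_mul, sz_mul, sz_mul, sz_mul, sz_pow, sz_two]
  have n1 := sz_nonneg φ u1
  have n2 := sz_nonneg φ u2
  have n3 := sz_nonneg φ u3
  have m1 := sz_nonneg φ b.1
  have m2 := sz_nonneg φ b.2.1
  have m3 := sz_nonneg φ b.2.2
  have k1 : sz φ b.1 * sz φ u3 ≤ B * y := mul_le_mul h1 e3 n3 hB
  have k2 : sz φ u1 * sz φ b.2.2 ≤ y * B := mul_le_mul e1 h3 m3 hy
  have k3 : sz φ u1 * sz φ u3 ≤ y * y := mul_le_mul e1 e3 n3 hy
  have k4 : sz φ b.2.1 * sz φ u2 ≤ B * y := mul_le_mul h2 e2 n2 hB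
  have k5 : sz φ u2 ^ 2 ≤ y ^ 2 := pow_le_pow_left₀ n2 e2 2
  nlinarith

theorem bf3_of (h1 : Avg3Stmt k M) (h2 : SwStmt M) : Bf3Stmt k M := by
  classical
  intro τ ω hω m hm h6 C hC ε hε
  obtain ⟨C0, hC0, hdist⟩ := grd_dist M
  obtain ⟨C1, hC1, havg⟩ := h1 τ ω hω m hm h6 2 (1 / 2) (by norm_num)
  obtain ⟨C2, hC2, hlog⟩ := cbf_log C1 ε hC1 hε
  obtain ⟨C4, hC4, hsw⟩ := h2 (4 / 5) (by norm_num) (by norm_num) (2 * C) (by linarith)
  obtain ⟨d, hd⟩ : ∃ d : ℕ, d = Module.finrank ℚ M := ⟨_, rfl⟩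
  rw [← hd] at havg hsw
  have hdpos : 0 < d := by
    rw [hd]
    exact Module.finrank_pos
  have hdR : (0 : ℝ) < d := by exact_mod_cast hdpos
  have hev : ∀ᶠ s : ℝ in Filter.atTop, C0 ≤ s ^ (9 / 10 : ℝ) ∧ 2 ≤ s ^ (4 / 5 : ℝ) ∧ C ^ 2 ≤ s ^ (1 / 2 : ℝ) ∧
      4 * C ^ 2 + 2 ≤ s ^ (3 / 40 : ℝ) := by
    have t1 := (tendsto_rpow_atTop (by norm_num : (0 : ℝ) < 9 / 10)).eventually_ge_atTop C0
    have t2 := (tendsto_rpow_atTop (by norm_num : (0 : ℝ) < 4 / 5)).eventually_ge_atTop 2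
    have t3 := (tendsto_rpow_atTop (by norm_num : (0 : ℝ) < 1 / 2)).eventually_ge_atTop (C ^ 2)
    have t4 := (tendsto_rpow_atTop (by norm_num : (0 : ℝ) < 3 / 40)).eventually_ge_atTop (4 * C ^ 2 + 2)
    filter_upwards [t1, t2, t3, t4] with s a1 a2 a3 a4
    exact ⟨a1, a2, a3, a4⟩
  obtain ⟨s0, hs0⟩ := Filter.eventually_atTop.1 hev
  refine ⟨(2 ^ (4 / 5 : ℝ)) ^ d * C1 * C2 * (2 * C0) ^ (3 * d) * C4, max s0 3, by positivity, le_max_right _ _, ?_⟩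
  intro s ρ1 ρ2 hs hRho hρ h hh hsf hcop hhn S hS
  rw [← hd] at hhn ⊢
  obtain ⟨f1, f2, f3, f4⟩ := hs0 s ((le_max_left _ _).trans hs)
  have hs3 : 3 ≤ s := (le_max_right _ _).trans hs
  have hs1 : 1 ≤ s := by linarith
  have hsp : 0 < s := by linarith
  obtain ⟨hr1, hr12, hr1C, hr2⟩ := hRho
  have hr2p : 0 < ρ2 := lt_of_lt_of_le hr1 hr12
  obtain ⟨y, hy⟩ : ∃ y : ℝ, y = s ^ (9 / 10 : ℝ) := ⟨_, rfl⟩
  have hyp : 0 < y := by rw [hy]; positivity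
  have hy1 : 1 ≤ y := by
    rw [hy]
    exact Real.one_le_rpow hs1 (by norm_num)
  have hys : y ≤ s := by
    rw [hy]
    calc s ^ (9 / 10 : ℝ) ≤ s ^ (1 : ℝ) := Real.rpow_le_rpow_of_exponent_le hs1 (by norm_num)
      _ = s := Real.rpow_one s
  -- the bound of the entries
  have hrr : ρ2 ^ 2 ≤ C * s ^ (1 / 200 : ℝ) := by
    have a1 : 1 ≤ ρ1 * s ^ (1 / 200 : ℝ) := by
      calc (1 : ℝ) = s ^ (-(1 / 200) : ℝ) * s ^ (1 / 200 : ℝ) := by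
            rw [← Real.rpow_add hsp, neg_add_cancel, Real.rpow_zero]
        _ ≤ ρ1 * s ^ (1 / 200 : ℝ) := mul_le_mul_of_nonneg_right hρ (by positivity)
    calc ρ2 ^ 2 ≤ ρ2 ^ 2 * (ρ1 * s ^ (1 / 200 : ℝ)) := le_mul_of_one_le_right (by positivity) a1
      _ = ρ1 * ρ2 ^ 2 * s ^ (1 / 200 : ℝ) := by ring
      _ ≤ C * s ^ (1 / 200 : ℝ) := mul_le_mul_of_nonneg_right hr2 (by positivity)
  obtain ⟨B, hB⟩ : ∃ B : ℝ, B = C ^ 2 * s ^ (201 / 200 : ℝ) := ⟨_, rfl⟩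
  have hBp : 0 ≤ B := by rw [hB]; positivity
  have hB3 : ∀ r : ℝ, 0 < r → r ≤ s → C * r * ρ2 ^ 2 ≤ B := by
    intro r hr hrs
    have a1 : s ^ (201 / 200 : ℝ) = s * s ^ (1 / 200 : ℝ) := by
      rw [show (201 / 200 : ℝ) = 1 + 1 / 200 by norm_num, Real.rpow_add hsp, Real.rpow_one]
    rw [hB, a1]
    calc C * r * ρ2 ^ 2 ≤ C * s * (C * s ^ (1 / 200 : ℝ)) :=
          mul_le_mul (mul_le_mul_of_nonneg_left hrs (by linarith)) hrr (by positivity) (by positivity)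
      _ = C ^ 2 * (s * s ^ (1 / 200 : ℝ)) := by ring
  have hBx : ∀ r : ℝ, 0 < r → r ≤ s → ∀ b : T3 M, Bx C r ρ1 ρ2 b → ∀ φ : M →+* ℂ,
      sz φ b.1 ≤ B ∧ sz φ b.2.1 ≤ B ∧ sz φ b.2.2 ≤ B := by
    intro r hr hrs b hb φ
    have a1 : ρ1 ^ 2 ≤ ρ2 ^ 2 := pow_le_pow_left₀ hr1.le hr12 2
    have a2 : ρ1 * ρ2 ≤ ρ2 ^ 2 := by
      rw [pow_two]
      exact mul_le_mul_of_nonneg_right hr12 hr2p.le
    have a3 := hB3 r hr hrs
    have a4 : 0 ≤ C * r := by positivity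
    refine ⟨(hb.1 φ).trans ?_, (hb.2.1 φ).trans ?_, (hb.2.2 φ).trans a3⟩
    · exact (mul_le_mul_of_nonneg_left a1 a4).trans a3
    · exact (mul_le_mul_of_nonneg_left a2 a4).trans a3
  have hBX : B ≤ (2 + s) ^ 2 := by
    have a1 : s ^ (201 / 200 : ℝ) ≤ s ^ (3 / 2 : ℝ) := Real.rpow_le_rpow_of_exponent_le hs1 (by norm_num)
    calc B ≤ s ^ (1 / 2 : ℝ) * s ^ (3 / 2 : ℝ) := by
          rw [hB]
          exact mul_le_mul f3 a1 (by positivity) (by positivity)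
      _ = s ^ 2 := by
          rw [← Real.rpow_add hsp, ← Real.rpow_natCast]
          norm_num
      _ ≤ (2 + s) ^ 2 := pow_le_pow_left₀ hsp.le (by linarith) 2
  have hall : ∀ r : ℝ, 0 < r → r ≤ s → ∀ b : T3 M, Bx C r ρ1 ρ2 b → T3.All (Bd ((2 + s) ^ 2)) b := by
    intro r hr hrs b hb
    refine ⟨fun φ => ?_, fun φ => ?_, fun φ => ?_⟩
    · exact (hBx r hr hrs b hb φ).1.trans hBX
    · exact (hBx r hr hrs b hb φ).2.1.trans hBX
    · exact (hBx r hr hrs b hb φ).2.2.trans hBX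
  -- the side of the cubes
  have hz1 : 1 ≤ y / C0 := by
    rw [le_div_iff₀ (by linarith), one_mul, hy]
    exact f1
  obtain ⟨n, hn⟩ : ∃ n : ℕ, n = ⌊y / C0⌋₊ := ⟨_, rfl⟩
  have hn1 : 0 < n := by
    rw [hn]
    exact Nat.floor_pos.2 hz1
  have hn1R : (1 : ℝ) ≤ n := by exact_mod_cast hn1
  have hnle : C0 * n ≤ y := by
    have a1 : (n : ℝ) ≤ y / C0 := by
      rw [hn]
      exact Nat.floor_le (by linarith)
    rw [le_div_iff₀ (by linarith)] at a1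
    linarith
  have hnge : y ≤ 2 * C0 * n := by
    have a1 : y / C0 < n + 1 := by
      rw [hn]
      exact Nat.lt_floor_add_one _
    rw [div_lt_iff₀ (by linarith)] at a1
    calc y ≤ (n + 1) * C0 := a1.le
      _ ≤ (2 * n) * C0 := mul_le_mul_of_nonneg_right (by linarith) (by linarith)
      _ = 2 * C0 * n := by ring
  have hbd : ∀ b b' : T3 M, ix n b' = ix n b → ∀ φ : M →+* ℂ,
      sz φ (b'.1 - b.1) ≤ y ∧ sz φ (b'.2.1 - b.2.1) ≤ y ∧ sz φ (b'.2.2 - b.2.2) ≤ y := by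
    intro b b' he φ
    obtain ⟨a1, a2, a3⟩ := hdist n hn1 b' b he
    exact ⟨(a1 φ).trans hnle, (a2 φ).trans hnle, (a3 φ).trans hnle⟩
  -- the average
  have hX3 : 3 ≤ 2 + s := by linarith
  have hXy : (2 + s) ^ (1 / 2 : ℝ) ≤ y := by
    have a1 : 2 + s ≤ s ^ (9 / 5 : ℝ) := by
      rw [show (9 / 5 : ℝ) = 1 + 4 / 5 by norm_num, Real.rpow_add hsp, Real.rpow_one]
      calc 2 + s ≤ s * 2 := by linarith
        _ ≤ s * s ^ (4 / 5 : ℝ) := mul_le_mul_of_nonneg_left f2 hsp.le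
    calc (2 + s) ^ (1 / 2 : ℝ) ≤ (s ^ (9 / 5 : ℝ)) ^ (1 / 2 : ℝ) :=
          Real.rpow_le_rpow (by linarith) a1 (by norm_num)
      _ = y := by
          rw [← Real.rpow_mul hsp.le, hy]
          norm_num
  have hyX : y ≤ (2 + s) ^ 2 :=
    (by linarith : y ≤ 2 + s).trans (le_self_pow₀ (by linarith : (1 : ℝ) ≤ 2 + s) two_ne_zero)
  have hhn' : ni h ≤ y ^ ((d : ℝ) / 40) := by
    refine hhn.trans ?_
    rw [hy, ← Real.rpow_mul hsp.le]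
    exact Real.rpow_le_rpow_of_exponent_le hs1 (by linarith)
  obtain ⟨Φ, hΦ⟩ : ∃ Φ : ℝ, Φ = C1 * y ^ (3 * d) * ni h ^ (-(5 / 2) : ℝ) *
      (Real.log (Real.log (2 + s)) + 3) ^ C1 * Real.log (2 + s) ^ (3 / 4 : ℝ) := ⟨_, rfl⟩
  have hdt0 : ∀ b ∈ S, dt b ≠ 0 := by
    intro b hb h0
    obtain ⟨φ⟩ : Nonempty (M →+* ℂ) := inferInstance
    have a1 := (hS b hb).2.2.1 φ
    have a2 : 0 < s ^ (2 - 1 / 50 : ℝ) := by positivity
    have a3 : sz φ (dt b) = 0 := by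
      rw [h0]
      simp [sz]
    linarith
  have hh1 : ∀ b0 ∈ S, ∑ b ∈ S.filter (fun b => ix n b = ix n b0), (F2 τ m h b : ℝ) ≤ Φ := by
    intro b0 hb0
    rw [hΦ]
    refine havg (2 + s) y hX3 hXy hyX h hh hsf hcop hhn' b0
      (hall s hsp le_rfl b0 (hS b0 hb0).1) _ ?_
    intro b hb
    rw [Finset.mem_filter] at hb
    have a1 := hbd b0 b hb.2
    exact ⟨⟨fun φ => (a1 φ).1, fun φ => (a1 φ).2.1, fun φ => (a1 φ).2.2⟩, (hS b hb.1).2.1, hdt0 b hb.1, (hS b hb.1).2.2.2⟩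
  -- the weights
  obtain ⟨lam, hlam⟩ : ∃ lam : ℝ, lam = s ^ (-(1 / 50) : ℝ) := ⟨_, rfl⟩
  have hlamp : 0 < lam := by rw [hlam]; positivity
  have hdiff : 4 * B * y + 2 * y ^ 2 ≤ s ^ (2 - 1 / 50 : ℝ) := by
    have a1 : B * y = C ^ 2 * s ^ (381 / 200 : ℝ) := by
      rw [hB, hy, mul_assoc, ← Real.rpow_add hsp]
      norm_num
    have a2 : y ^ 2 ≤ s ^ (381 / 200 : ℝ) := by
      rw [hy, ← Real.rpow_natCast, ← Real.rpow_mul hsp.le]
      exact Real.rpow_le_rpow_of_exponent_le hs1 (by norm_num)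
    have a3 : s ^ (2 - 1 / 50 : ℝ) = s ^ (3 / 40 : ℝ) * s ^ (381 / 200 : ℝ) := by
      rw [← Real.rpow_add hsp]
      norm_num
    rw [a3]
    have a4 : (4 * C ^ 2 + 2) * s ^ (381 / 200 : ℝ) ≤ s ^ (3 / 40 : ℝ) * s ^ (381 / 200 : ℝ) :=
      mul_le_mul_of_nonneg_right f4 (by positivity)
    refine le_trans ?_ a4
    have a5 : 4 * B * y + 2 * y ^ 2 = 4 * (B * y) + 2 * y ^ 2 := by ring
    have a6 : (4 * C ^ 2 + 2) * s ^ (381 / 200 : ℝ) =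
        4 * (C ^ 2 * s ^ (381 / 200 : ℝ)) + 2 * s ^ (381 / 200 : ℝ) := by ring
    rw [a5, a6, a1]
    exact add_le_add le_rfl (mul_le_mul_of_nonneg_left a2 (by norm_num))
  have hh2 : ∀ b ∈ S, ∀ b', ix n b' = ix n b →
      Wt (4 / 5) s b ≤ (2 ^ (4 / 5 : ℝ)) ^ d * Wl (4 / 5) s lam b' := by
    intro b hb b' he
    have hpt : ∀ φ : M →+* ℂ, (sz φ (dt b) / s ^ 2) ^ (-(4 / 5) : ℝ) ≤
        2 ^ (4 / 5 : ℝ) * (max (sz φ (dt b') / s ^ 2) lam) ^ (-(4 / 5) : ℝ) := by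
      intro φ
      refine cbf_pt (lt_of_lt_of_le hlamp (le_max_right _ _)) (by norm_num) ?_
      obtain ⟨a1, a2, a3⟩ := hBx s hsp le_rfl b (hS b hb).1 φ
      obtain ⟨e1, e2, e3⟩ := hbd b b' he φ
      have a4 := cbf_dt hBp hyp.le a1 a2 a3 e1 e2 e3
      have a5 := (hS b hb).2.2.1 φ
      have a6 : sz φ (dt b') ≤ 2 * sz φ (dt b) := by linarith
      refine max_le ?_ ?_
      · rw [← mul_div_assoc]
        exact div_le_div_of_nonneg_right a6 (by positivity)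
      · have a7 : lam ≤ sz φ (dt b) / s ^ 2 := by
          rw [le_div_iff₀ (by positivity), hlam]
          refine le_trans (le_of_eq ?_) a5
          rw [← Real.rpow_natCast s 2, ← Real.rpow_add hsp]
          norm_num
        have a8 : 0 ≤ sz φ (dt b) / s ^ 2 := hlamp.le.trans a7
        linarith
    unfold Wt Wl
    calc ∏ φ : M →+* ℂ, (sz φ (dt b) / s ^ 2) ^ (-(4 / 5) : ℝ)
        ≤ ∏ φ : M →+* ℂ, (2 ^ (4 / 5 : ℝ) * (max (sz φ (dt b') / s ^ 2) lam) ^ (-(4 / 5) : ℝ)) :=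
          Finset.prod_le_prod (fun φ _ => Real.rpow_nonneg (div_nonneg (sz_nonneg φ _) (by positivity)) _)
            fun φ _ => hpt φ
      _ = (2 ^ (4 / 5 : ℝ)) ^ d * ∏ φ : M →+* ℂ, (max (sz φ (dt b') / s ^ 2) lam) ^ (-(4 / 5) : ℝ) := by
          rw [Finset.prod_mul_distrib, Finset.prod_const, Finset.card_univ, NumberField.Embeddings.card, hd]
  obtain ⟨S', hS', hsum⟩ := grd_sum n hn1 S (fun b => (F2 τ m h b : ℝ)) (Wt (4 / 5) s)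
    (Wl (4 / 5) s lam) Φ ((2 ^ (4 / 5 : ℝ)) ^ d) (fun b _ => Nat.cast_nonneg _)
    (fun b _ => Finset.prod_nonneg fun φ _ => Real.rpow_nonneg (div_nonneg (sz_nonneg φ _) (by positivity)) _)
    hh1 hh2
  rw [← hd] at hsum
  refine hsum.trans ?_
  -- the sum of the weights
  have hyr : y ≤ s * ρ1 ^ 2 := by
    have a1 : s ^ (-(1 / 100) : ℝ) ≤ ρ1 ^ 2 := by
      calc s ^ (-(1 / 100) : ℝ) = (s ^ (-(1 / 200) : ℝ)) ^ 2 := by
            rw [← Real.rpow_natCast, ← Real.rpow_mul hsp.le]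
            norm_num
        _ ≤ ρ1 ^ 2 := pow_le_pow_left₀ (by positivity) hρ 2
    calc y ≤ s ^ (99 / 100 : ℝ) := by
          rw [hy]
          exact Real.rpow_le_rpow_of_exponent_le hs1 (by norm_num)
      _ = s * s ^ (-(1 / 100) : ℝ) := by
          nth_rewrite 2 [← Real.rpow_one s]
          rw [← Real.rpow_add hsp]
          norm_num
      _ ≤ s * ρ1 ^ 2 := mul_le_mul_of_nonneg_left a1 hsp.le
  have hBx' : ∀ b' ∈ S', Bx (2 * C) s ρ1 ρ2 b' ∧ T3.All (fun x => x ∈ (⊤ : Ideal (NumberField.RingOfIntegers M))) b' := by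
    intro b' hb'
    obtain ⟨b, hb, he⟩ := hS' b' hb'
    have a0 := (hS b hb).1
    have hCs : 0 ≤ C * s := by positivity
    have g1 : y ≤ C * s * ρ1 ^ 2 := by
      rw [mul_assoc]
      exact hyr.trans (le_mul_of_one_le_left (by positivity) hC)
    have g2 : C * s * ρ1 ^ 2 ≤ C * s * (ρ1 * ρ2) := by
      rw [pow_two]
      exact mul_le_mul_of_nonneg_left (mul_le_mul_of_nonneg_left hr12 hr1.le) hCs
    have g3 : C * s * (ρ1 * ρ2) ≤ C * s * ρ2 ^ 2 := by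
      rw [pow_two]
      exact mul_le_mul_of_nonneg_left (mul_le_mul_of_nonneg_right hr12 hr2p.le) hCs
    refine ⟨⟨fun φ => ?_, fun φ => ?_, fun φ => ?_⟩, Submodule.mem_top, Submodule.mem_top, Submodule.mem_top⟩
    · have a1 := (hbd b b' he φ).1
      have a2 := sz_add φ (b'.1 - b.1) b.1
      rw [sub_add_cancel] at a2
      have a3 : sz φ b.1 ≤ C * s * ρ1 ^ 2 := a0.1 φ
      change sz φ b'.1 ≤ _
      linarith
    · have a1 := (hbd b b' he φ).2.1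
      have a2 := sz_add φ (b'.2.1 - b.2.1) b.2.1
      rw [sub_add_cancel] at a2
      have a3 : sz φ b.2.1 ≤ C * s * (ρ1 * ρ2) := a0.2.1 φ
      change sz φ b'.2.1 ≤ _
      linarith
    · have a1 := (hbd b b' he φ).2.2
      have a2 := sz_add φ (b'.2.2 - b.2.2) b.2.2
      rw [sub_add_cancel] at a2
      have a3 : sz φ b.2.2 ≤ C * s * ρ2 ^ 2 := a0.2.2 φ
      change sz φ b'.2.2 ≤ _
      linarith
  have hρ2 : ρ2 ≤ 2 * C * s ^ (1 / 100 : ℝ) := by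
    have a1 : C * s ^ (1 / 200 : ℝ) ≤ (2 * C * s ^ (1 / 100 : ℝ)) ^ 2 := by
      have b1 : s ^ (1 / 200 : ℝ) ≤ s ^ (1 / 50 : ℝ) := Real.rpow_le_rpow_of_exponent_le hs1 (by norm_num)
      have b2 : (s ^ (1 / 100 : ℝ)) ^ 2 = s ^ (1 / 50 : ℝ) := by
        rw [← Real.rpow_natCast, ← Real.rpow_mul hsp.le]
        norm_num
      have b3 : 0 < s ^ (1 / 50 : ℝ) := by positivity
      rw [mul_pow, b2]
      exact mul_le_mul (cbf_c hC) b1 (by positivity) (by positivity)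
    exact (pow_le_pow_iff_left₀ hr2p.le (by positivity) two_ne_zero).1 (hrr.trans a1)
  have hsw' := hsw s ρ1 ρ2 lam hs1
    ((Real.rpow_le_rpow_of_exponent_le hs1 (by norm_num)).trans hρ) hr12 hρ2 (le_of_eq hlam.symm)
    (by
      rw [hlam]
      exact Real.rpow_le_one_of_one_le_of_nonpos hs1 (by norm_num))
    ⊤ top_ne_bot (by
      rw [ni_top]
      exact Real.one_le_rpow hs1 (by positivity)) S' hBx'
  rw [ni_top, inv_one, one_pow, mul_one, show (3 - 2 * (4 / 5) : ℝ) = 7 / 5 by norm_num] at hsw'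
  -- conclusion
  have hL1 : 1 ≤ Real.log (2 + s) := by
    rw [Real.le_log_iff_exp_le (by linarith)]
    have := Real.exp_one_lt_d9
    linarith
  have hlog' := hlog _ hL1
  have hyn : y ^ (3 * d) * ((n : ℝ) ^ (3 * d))⁻¹ ≤ (2 * C0) ^ (3 * d) := by
    rw [← div_eq_mul_inv, ← div_pow]
    refine pow_le_pow_left₀ (by positivity) ?_ _
    rw [div_le_iff₀ (by linarith)]
    exact hnge
  have hL0 : 0 < Real.log (2 + s) := by linarith
  have hN : 0 ≤ ni h ^ (-(5 / 2) : ℝ) := Real.rpow_nonneg (ni_nonneg h) _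
  have hLadd : Real.log (2 + s) ^ ε * Real.log (2 + s) ^ (3 / 4 : ℝ) = Real.log (2 + s) ^ (3 / 4 + ε) := by
    rw [← Real.rpow_add hL0]
    congr 1
    ring
  have hlnn : 0 ≤ (Real.log (Real.log (2 + s)) + 3) ^ C1 := by
    refine Real.rpow_nonneg ?_ _
    have := Real.log_nonneg hL1
    linarith
  have hc1 : 0 ≤ ((2 : ℝ) ^ (4 / 5 : ℝ)) ^ d := by positivity
  have hW : 0 ≤ ∑ b' ∈ S', Wl (4 / 5) s lam b' := Finset.sum_nonneg fun b' _ =>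
    Finset.prod_nonneg fun φ _ => Real.rpow_nonneg (hlamp.le.trans (le_max_right _ _)) _
  rw [hΦ]
  calc (2 ^ (4 / 5 : ℝ)) ^ d * (C1 * y ^ (3 * d) * ni h ^ (-(5 / 2) : ℝ) *
        (Real.log (Real.log (2 + s)) + 3) ^ C1 * Real.log (2 + s) ^ (3 / 4 : ℝ)) * ((n : ℝ) ^ (3 * d))⁻¹ *
        ∑ b' ∈ S', Wl (4 / 5) s lam b'
      = (2 ^ (4 / 5 : ℝ)) ^ d * C1 * ni h ^ (-(5 / 2) : ℝ) * Real.log (2 + s) ^ (3 / 4 : ℝ) *
        ((y ^ (3 * d) * ((n : ℝ) ^ (3 * d))⁻¹) * (Real.log (Real.log (2 + s)) + 3) ^ C1 *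
          ∑ b' ∈ S', Wl (4 / 5) s lam b') := by ring
    _ ≤ (2 ^ (4 / 5 : ℝ)) ^ d * C1 * ni h ^ (-(5 / 2) : ℝ) * Real.log (2 + s) ^ (3 / 4 : ℝ) *
        ((2 * C0) ^ (3 * d) * (C2 * Real.log (2 + s) ^ ε) *
          (C4 * s ^ (3 * d) * (ρ1 * ρ2) ^ (7 / 5 * (d : ℝ)))) := by
        refine mul_le_mul_of_nonneg_left ?_ (by positivity)
        refine mul_le_mul (mul_le_mul hyn hlog' hlnn (by positivity)) hsw' hW ?_
        have : 0 ≤ Real.log (2 + s) ^ ε := Real.rpow_nonneg (by linarith) _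
        positivity
    _ = (2 ^ (4 / 5 : ℝ)) ^ d * C1 * C2 * (2 * C0) ^ (3 * d) * C4 * s ^ (3 * d) *
        (ρ1 * ρ2) ^ (7 / 5 * (d : ℝ)) * ni h ^ (-(5 / 2) : ℝ) *
        (Real.log (2 + s) ^ ε * Real.log (2 + s) ^ (3 / 4 : ℝ)) := by ring
    _ = _ := by rw [hLadd]

end H38.AW
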