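import Pool.Agent.H88.AQ.Iface
import Pool.Agent.H88.WS.Ids

/-!
# [H38 AW BS] `Bs3Stmt` from `Cnt3Stmt`, `Bf3Stmt`, `Bf4Stmt` (W2#, MP_b39724; port of H88/WS/Bs.lean; complete). File Pool/Agent/H38/AW/Bs.lean
-/

open scoped NumberField
open H88.A4 Pool.Agent.H67.WA H88.WS H88.AQ

noncomputable section

namespace H38.AW

variable {k M : Type} [Field k] [NumberField k] [Field M] [NumberField M] [Algebra k M]

private theorem cbs_log (d : ℕ) (B : ℝ) (hB : 0 ≤ B) (ε : ℝ) (hε : 0 < ε) :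
    ∃ C : ℝ, 0 < C ∧ ∀ L : ℝ, 1 ≤ L → (1 + B * Real.log L) ^ d ≤ C * L ^ ε := by
  have hd : (0 : ℝ) < (d : ℝ) + 1 := by positivity
  have hδ : 0 < ε / ((d : ℝ) + 1) := by positivity
  refine ⟨(1 + B / (ε / ((d : ℝ) + 1))) ^ d, by positivity, fun L hL => ?_⟩
  have hL0 : 0 < L := by linarith
  have h1 : Real.log L ≤ L ^ (ε / ((d : ℝ) + 1)) / (ε / ((d : ℝ) + 1)) := Real.log_le_rpow_div hL0.le hδ
  have h2 : 1 ≤ L ^ (ε / ((d : ℝ) + 1)) := Real.one_le_rpow hL hδ.le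
  have h3 : 0 ≤ Real.log L := Real.log_nonneg hL
  have h4 : 1 + B * Real.log L ≤ (1 + B / (ε / ((d : ℝ) + 1))) * L ^ (ε / ((d : ℝ) + 1)) := by
    have h5 : B * Real.log L ≤ B * (L ^ (ε / ((d : ℝ) + 1)) / (ε / ((d : ℝ) + 1))) :=
      mul_le_mul_of_nonneg_left h1 hB
    calc 1 + B * Real.log L ≤ L ^ (ε / ((d : ℝ) + 1)) + B * (L ^ (ε / ((d : ℝ) + 1)) / (ε / ((d : ℝ) + 1))) := by
          linarith
      _ = (1 + B / (ε / ((d : ℝ) + 1))) * L ^ (ε / ((d : ℝ) + 1)) := by ring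
  calc (1 + B * Real.log L) ^ d ≤ ((1 + B / (ε / ((d : ℝ) + 1))) * L ^ (ε / ((d : ℝ) + 1))) ^ d :=
        pow_le_pow_left₀ (by positivity) h4 d
    _ = (1 + B / (ε / ((d : ℝ) + 1))) ^ d * L ^ (ε / ((d : ℝ) + 1) * d) := by
        rw [mul_pow, ← Real.rpow_natCast (L ^ _) d, ← Real.rpow_mul hL0.le]
    _ ≤ (1 + B / (ε / ((d : ℝ) + 1))) ^ d * L ^ ε := by
        refine mul_le_mul_of_nonneg_left (Real.rpow_le_rpow_of_exponent_le hL ?_) (by positivity)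
        rw [div_mul_eq_mul_div, div_le_iff₀ hd]
        nlinarith

/-- `(ρ1 ρ2)^(2 a) ≤ (C ρ1)^a` -/
private theorem cbs_rr {C ρ1 ρ2 : ℝ} (hr : Rho C ρ1 ρ2) (a : ℝ) (ha : 0 ≤ a) :
    (ρ1 * ρ2) ^ (2 * a) ≤ C ^ a * ρ1 ^ a := by
  obtain ⟨h1, h2, h3, h4⟩ := hr
  have hρ2 : 0 < ρ2 := by linarith
  have hC0 : 0 < C := by linarith
  have h5 : (ρ1 * ρ2) ^ (2 : ℝ) ≤ C * ρ1 := by
    rw [Real.rpow_two]
    have e : (ρ1 * ρ2) ^ 2 = (ρ1 * ρ2 ^ 2) * ρ1 := by ring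
    rw [e]
    exact mul_le_mul_of_nonneg_right h4 h1.le
  rw [Real.rpow_mul (by positivity), ← Real.mul_rpow hC0.le h1.le]
  exact Real.rpow_le_rpow (by positivity) h5 ha

private theorem cbs_pow {C ρ κ a : ℝ} (hC : 1 ≤ C) (hρ : 0 < ρ) (hρC : ρ ≤ C) (hκ : 0 ≤ κ)
    (ha : κ ≤ a) : ρ ^ a ≤ C ^ a * ρ ^ κ := by
  have h1 : ρ ^ a = ρ ^ (a - κ) * ρ ^ κ := by
    rw [← Real.rpow_add hρ]
    congr 1
    ring
  have h2 : ρ ^ (a - κ) ≤ C ^ (a - κ) := Real.rpow_le_rpow hρ.le hρC (by linarith)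
  have h3 : C ^ (a - κ) ≤ C ^ a := Real.rpow_le_rpow_of_exponent_le hC (by linarith)
  rw [h1]
  exact mul_le_mul_of_nonneg_right (h2.trans h3) (Real.rpow_nonneg hρ.le _)

private theorem cbs_good {C ρ1 ρ2 : ℝ} (hC : 1 ≤ C) (hr : Rho C ρ1 ρ2) (d : ℝ) (hd : 1 ≤ d) :
    (2 + ρ2) ^ (d / 20) * (ρ1 * ρ2) ^ (7 / 5 * d) ≤
      (3 ^ (d / 20) * C ^ (d / 40) * C ^ (7 / 10 * d) * C ^ (27 / 40 * d)) * ρ1 ^ (1 / 4 : ℝ) := by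
  have h0 := cbs_rr hr (7 / 10 * d) (by positivity)
  obtain ⟨h1, h2, h3, h4⟩ := hr
  have hC0 : 0 < C := by linarith
  have h5 : 1 ≤ C / ρ1 := by rwa [one_le_div h1]
  have h6 : ρ2 ^ 2 ≤ C / ρ1 := by
    rw [le_div_iff₀ h1]
    linarith
  have hρ2 : 0 < ρ2 := by linarith
  have h7 : 2 + ρ2 ≤ 3 * (C / ρ1) ^ (1 / 2 : ℝ) := by
    have h8 : 1 ≤ (C / ρ1) ^ (1 / 2 : ℝ) := Real.one_le_rpow h5 (by norm_num)
    have h9 : ρ2 ≤ (C / ρ1) ^ (1 / 2 : ℝ) := by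
      rw [← Real.sqrt_eq_rpow]
      exact Real.le_sqrt_of_sq_le h6
    linarith
  have h10 : 0 < C / ρ1 := by linarith
  have h11 : (2 + ρ2) ^ (d / 20) ≤ 3 ^ (d / 20) * C ^ (d / 40) * ρ1 ^ (-(d / 40)) := by
    calc (2 + ρ2) ^ (d / 20) ≤ (3 * (C / ρ1) ^ (1 / 2 : ℝ)) ^ (d / 20) :=
          Real.rpow_le_rpow (by linarith) h7 (by positivity)
      _ = 3 ^ (d / 20) * (C / ρ1) ^ (d / 40) := by
          rw [Real.mul_rpow (by norm_num) (by positivity), ← Real.rpow_mul h10.le]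
          congr 2
          ring
      _ = 3 ^ (d / 20) * C ^ (d / 40) * ρ1 ^ (-(d / 40)) := by
          rw [Real.rpow_neg h1.le, Real.div_rpow hC0.le h1.le, div_eq_mul_inv (C ^ (d / 40)), mul_assoc]
  have e1 : 7 / 5 * d = 2 * (7 / 10 * d) := by ring
  have e2 : ρ1 ^ (-(d / 40)) * ρ1 ^ (7 / 10 * d) = ρ1 ^ (27 / 40 * d) := by
    rw [← Real.rpow_add h1]
    congr 1
    ring
  have h12 : ρ1 ^ (27 / 40 * d) ≤ C ^ (27 / 40 * d) * ρ1 ^ (1 / 4 : ℝ) :=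
    cbs_pow hC h1 h3 (by norm_num) (by linarith)
  rw [e1]
  calc (2 + ρ2) ^ (d / 20) * (ρ1 * ρ2) ^ (2 * (7 / 10 * d)) ≤
        (3 ^ (d / 20) * C ^ (d / 40) * ρ1 ^ (-(d / 40))) * (C ^ (7 / 10 * d) * ρ1 ^ (7 / 10 * d)) :=
        mul_le_mul h11 h0 (by positivity) (by positivity)
    _ = (3 ^ (d / 20) * C ^ (d / 40) * C ^ (7 / 10 * d)) * (ρ1 ^ (-(d / 40)) * ρ1 ^ (7 / 10 * d)) := by ring
    _ ≤ (3 ^ (d / 20) * C ^ (d / 40) * C ^ (7 / 10 * d)) * (C ^ (27 / 40 * d) * ρ1 ^ (1 / 4 : ℝ)) := by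
        rw [e2]
        exact mul_le_mul_of_nonneg_left h12 (by positivity)
    _ = _ := by ring

private theorem cbs_bad {C ρ1 ρ2 : ℝ} (hC : 1 ≤ C) (hr : Rho C ρ1 ρ2) (d : ℝ) (hd : 1 ≤ d) :
    (ρ1 * ρ2) ^ (3 / 2 * d) * ρ1 ^ (-(1 / 3) : ℝ) ≤
      (C ^ (3 / 4 * d) * C ^ (3 / 4 * d - 1 / 3)) * ρ1 ^ (1 / 4 : ℝ) := by
  have h0 := cbs_rr hr (3 / 4 * d) (by positivity)
  obtain ⟨h1, h2, h3, h4⟩ := hr
  have hC0 : 0 < C := by linarith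
  have e1 : 3 / 2 * d = 2 * (3 / 4 * d) := by ring
  have e2 : ρ1 ^ (3 / 4 * d) * ρ1 ^ (-(1 / 3) : ℝ) = ρ1 ^ (3 / 4 * d - 1 / 3) := by
    rw [← Real.rpow_add h1]
    congr 1
  have h12 : ρ1 ^ (3 / 4 * d - 1 / 3) ≤ C ^ (3 / 4 * d - 1 / 3) * ρ1 ^ (1 / 4 : ℝ) :=
    cbs_pow hC h1 h3 (by norm_num) (by linarith)
  rw [e1]
  calc (ρ1 * ρ2) ^ (2 * (3 / 4 * d)) * ρ1 ^ (-(1 / 3) : ℝ) ≤
        (C ^ (3 / 4 * d) * ρ1 ^ (3 / 4 * d)) * ρ1 ^ (-(1 / 3) : ℝ) :=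
        mul_le_mul_of_nonneg_right h0 (by positivity)
    _ = C ^ (3 / 4 * d) * (ρ1 ^ (3 / 4 * d) * ρ1 ^ (-(1 / 3) : ℝ)) := by ring
    _ ≤ C ^ (3 / 4 * d) * (C ^ (3 / 4 * d - 1 / 3) * ρ1 ^ (1 / 4 : ℝ)) := by
        rw [e2]
        exact mul_le_mul_of_nonneg_left h12 (by positivity)
    _ = _ := by ring

private theorem cbs_mu (d : ℕ) (L : ℝ) (hL : 1 ≤ L) :
    L ^ d * ((L ^ (12 * (d + 2)))⁻¹) ^ (1 / 12 : ℝ) ≤ 1 := by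
  have hL0 : 0 < L := by linarith
  have e : ((L ^ (12 * (d + 2)))⁻¹) ^ (1 / 12 : ℝ) = (L ^ (d + 2))⁻¹ := by
    rw [Real.inv_rpow (by positivity), ← Real.rpow_natCast L (12 * (d + 2)), ← Real.rpow_mul hL0.le,
      ← Real.rpow_natCast L (d + 2)]
    congr 2
    push_cast
    ring
  rw [e, mul_inv_le_iff₀ (by positivity), one_mul]
  exact pow_le_pow_right₀ hL (by omega)

private theorem cbs_group {D : ℝ} (hD : ∀ G : Finset (Ideal (𝓞 M)), (∀ I ∈ G, I ≠ ⊥) → ∑ I ∈ G, ni I ^ (-(3 / 2) : ℝ) ≤ D)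
    {ι : Type} (B : Finset ι) (h : ι → Ideal (𝓞 M)) (F : ι → ℝ) (X : ℝ) (hX : 0 ≤ X) (hh : ∀ β ∈ B, h β ≠ ⊥)
    (hF : ∀ I : Ideal (𝓞 M), I ≠ ⊥ → ∀ B' : Finset ι, B' ⊆ B → B'.Nonempty → (∀ β ∈ B', h β = I) →
      ∑ β ∈ B', F β ≤ X * ni I ^ (-(5 / 2) : ℝ)) :
    ∑ β ∈ B, ni (h β) * F β ≤ X * D := by
  classical
  have h1 : ∀ β ∈ B, h β ∈ B.image h := fun β hβ => Finset.mem_image_of_mem h hβ
  rw [← Finset.sum_fiberwise_of_maps_to h1]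
  have hne : ∀ I ∈ B.image h, I ≠ ⊥ := by
    intro I hI
    obtain ⟨β, hβ, rfl⟩ := Finset.mem_image.1 hI
    exact hh β hβ
  calc ∑ I ∈ B.image h, ∑ β ∈ B with h β = I, ni (h β) * F β
      ≤ ∑ I ∈ B.image h, X * ni I ^ (-(3 / 2) : ℝ) := by
        refine Finset.sum_le_sum fun I hI => ?_
        have h2 : ∑ β ∈ B with h β = I, ni (h β) * F β = ni I * ∑ β ∈ B with h β = I, F β := by
          rw [Finset.mul_sum]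
          refine Finset.sum_congr rfl fun β hβ => ?_
          rw [(Finset.mem_filter.1 hβ).2]
        have h3 : 0 < ni I := lt_of_lt_of_le one_pos (one_le_ni (hne I hI))
        obtain ⟨β, hβ, hβI⟩ := Finset.mem_image.1 hI
        have h4 := hF I (hne I hI) (B.filter fun β => h β = I) (Finset.filter_subset _ _)
          ⟨β, Finset.mem_filter.2 ⟨hβ, hβI⟩⟩ (fun β hβ => (Finset.mem_filter.1 hβ).2)
        rw [h2]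
        have h5 : ni I ^ (-(3 / 2) : ℝ) = ni I * ni I ^ (-(5 / 2) : ℝ) := by
          have h6 : ni I ^ (1 + -(5 / 2) : ℝ) = ni I ^ (1 : ℝ) * ni I ^ (-(5 / 2) : ℝ) := Real.rpow_add h3 _ _
          rw [Real.rpow_one] at h6
          rw [← h6]
          norm_num
        calc ni I * ∑ β ∈ B with h β = I, F β ≤ ni I * (X * ni I ^ (-(5 / 2) : ℝ)) := mul_le_mul_of_nonneg_left h4 h3.le
          _ = X * ni I ^ (-(3 / 2) : ℝ) := by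
            rw [h5]
            ring
    _ = X * ∑ I ∈ B.image h, ni I ^ (-(3 / 2) : ℝ) := by rw [Finset.mul_sum]
    _ ≤ X * D := mul_le_mul_of_nonneg_left (hD _ hne) hX

private theorem cbs_inj {τ : M ≃ₐ[k] M} {β γ : Blk (𝓞 M)} (hβ : β.Cj τ) (hγ : γ.Cj τ) (h : tb β = tb γ) : β = γ := by
  have h1 : β.b1 = γ.b1 := congrArg (fun b : T3 M => b.1) h
  have h2 : β.b2 = γ.b2 := congrArg (fun b : T3 M => b.2.1) h
  have h3 : β.b3 = γ.b3 := congrArg (fun b : T3 M => b.2.2) h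
  refine Blk.ext h1 h2 h3 ?_ ?_ ?_
  · rw [hβ.1, hγ.1, h1]
  · rw [hβ.2.1, hγ.2.1, h2]
  · rw [hβ.2.2, hγ.2.2, h3]

private theorem cbs_E {τ : M ≃ₐ[k] M} {β : Blk (𝓞 M)} (hβ : β.Cj τ) : E2 τ (tb β) = β.E := by
  obtain ⟨a1, a2, a3⟩ := hβ
  unfold E2 Ec Blk.E mx dt cj Blk.D1 Blk.D2 Blk.D3 tb
  rw [a1, a2, a3]

theorem bs3_of (h1 : Cnt3Stmt k M) (h2 : Bf3Stmt k M) (h3 : Bf4Stmt k M) : Bs3Stmt k M := by
  classical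
  intro τ ω hω m0 hm0 C hC A
  obtain ⟨m, hm, hm6, h1⟩ := h1 τ ω hω m0 hm0
  obtain ⟨C1, hC1, h1⟩ := h1 C hC A
  obtain ⟨C2, s2, hC2, hs2, h2⟩ := h2 τ ω hω m hm hm6 C hC (1 / 16) (by norm_num)
  obtain ⟨C3, s3, hC3, hs3, h3⟩ := h3 τ ω hω m hm hm6 C hC (1 / 16) (by norm_num) (12 * (Module.finrank ℚ M + 2))
  obtain ⟨C4, hC4, h4⟩ := ids_conv M (3 / 2) (by norm_num)
  obtain ⟨C5, hC5, h5⟩ := cbs_log (Module.finrank ℚ M) ((12 * (Module.finrank ℚ M + 2) : ℕ) : ℝ) (by positivity) (1 / 16)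
    (by norm_num)
  have hd1 : (1 : ℝ) ≤ (Module.finrank ℚ M : ℝ) := by
    exact_mod_cast Nat.one_le_iff_ne_zero.2 (Module.finrank_pos (R := ℚ) (M := M)).ne'
  have hC0 : 0 < C := by linarith
  obtain ⟨C6, hC6, h6⟩ : ∃ C6 : ℝ, 0 < C6 ∧ ∀ ρ1 ρ2 : ℝ, Rho C ρ1 ρ2 → (2 + ρ2) ^ ((Module.finrank ℚ M : ℝ) / 20) *
      (ρ1 * ρ2) ^ (7 / 5 * (Module.finrank ℚ M : ℝ)) ≤ C6 * ρ1 ^ (1 / 4 : ℝ) :=
    ⟨_, by positivity, fun ρ1 ρ2 hr => cbs_good hC hr _ hd1⟩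
  obtain ⟨C7, hC7, h7⟩ : ∃ C7 : ℝ, 0 < C7 ∧ ∀ ρ1 ρ2 : ℝ, Rho C ρ1 ρ2 →
      (ρ1 * ρ2) ^ (3 / 2 * (Module.finrank ℚ M : ℝ)) * ρ1 ^ (-(1 / 3) : ℝ) ≤ C7 * ρ1 ^ (1 / 4 : ℝ) :=
    ⟨_, by positivity, fun ρ1 ρ2 hr => cbs_bad hC hr _ hd1⟩
  refine ⟨C1 * C5 * C6 * C2 * C4 + C1 * C3 * C7 * C4, max s2 s3, by positivity, le_max_of_le_left hs2,
    fun s ρ1 ρ2 hs hr hρ S hS => ?_⟩
  have hs2' : s2 ≤ s := (le_max_left _ _).trans hs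
  have hs3' : s3 ≤ s := (le_max_right _ _).trans hs
  have hs0 : 3 ≤ s := hs2.trans hs2'
  have hCs : 1 ≤ C * s := by nlinarith
  have hρ1 : 0 < ρ1 := hr.1
  have hρ2 : 0 < ρ2 := lt_of_lt_of_le hr.1 hr.2.1
  have hL : 1 ≤ Real.log (2 + s) := by
    rw [Real.le_log_iff_exp_le (by linarith)]
    exact Real.exp_one_lt_d9.le.trans (by norm_num; linarith)
  have hWt : ∀ (θ x : ℝ) (b : T3 M), 0 ≤ Wt θ x b := fun θ x b =>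
    Finset.prod_nonneg fun φ _ => Real.rpow_nonneg (div_nonneg (sz_nonneg _ _) (sq_nonneg _)) _
  have hL0 : 0 < Real.log (2 + s) := by linarith
  -- the blocks
  obtain ⟨Bk, hBkdef⟩ : ∃ Bk : Finset (Blk (𝓞 M)), Bk = S.image fun x => x.2 := ⟨_, rfl⟩
  have hBk : ∀ β ∈ Bk, Main2 τ C s ρ1 ρ2 β ∧ β.All (Bd (Hp C A s)) ∧ Ndg s (tb β) := by
    intro β hβ
    rw [hBkdef] at hβ
    obtain ⟨x, hx, rfl⟩ := Finset.mem_image.1 hβ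
    have a1 := hS x hx
    exact ⟨a1.1.2.1, a1.1.2.2.1, a1.2⟩
  obtain ⟨n, hndef⟩ : ∃ n : Blk (𝓞 M) → Finset (𝓞 M), n = fun β =>
      (S.filter fun x => x.2 = β).image fun x => x.1 := ⟨_, rfl⟩
  have hn : (S.card : ℝ) = ∑ β ∈ Bk, ((n β).card : ℝ) := by
    rw [Finset.card_eq_sum_card_image (fun x : 𝓞 M × Blk (𝓞 M) => x.2) S, Nat.cast_sum, hBkdef]
    refine Finset.sum_congr rfl fun β _ => ?_
    rw [hndef]
    congr 1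
    symm
    refine Finset.card_image_of_injOn ?_
    rintro ⟨u, γ⟩ hx ⟨u', γ'⟩ hx' he
    have a1 : γ = β := (Finset.mem_filter.1 hx).2
    have a2 : γ' = β := (Finset.mem_filter.1 hx').2
    have a3 : u = u' := he
    rw [a1, a2, a3]
  have hnS : ∀ β ∈ Bk, ∀ u ∈ n β, Adm m0 C s s u (tO τ u) ∧ Rep2 τ (Hp C A s) β u := by
    intro β _ x hx
    rw [hndef] at hx
    obtain ⟨y, hy, rfl⟩ := Finset.mem_image.1 hx
    obtain ⟨hy1, hy2⟩ := Finset.mem_filter.1 hy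
    have a1 := hS y hy1
    rw [← hy2]
    exact ⟨a1.1.1, a1.1.2.2.2⟩
  have hex : ∀ β : Blk (𝓞 M), ∃ h : Ideal (𝓞 M), β ∈ Bk → h ≠ ⊥ ∧ Squarefree h ∧ IsCoprime h (cI τ h) ∧
      T3.All (fun x => x ∈ h) (tb β) ∧
      ((n β).card : ℝ) ≤ C1 * F2 τ m h (tb β) * Real.log (2 + s) ^ Module.finrank ℚ M *
        (ni h * Wt (3 / 4) s (tb β)) ∧
      ∀ μ : ℝ, 0 < μ → μ ≤ 1 →
        (∀ φ : M →+* ℂ, μ ^ 2 * s ^ 4 ≤ sz φ (E2 τ (tb β)) ∧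
          μ ^ 2 * s ^ 4 ≤ sz φ (dl2 τ (tb β))) →
        ((n β).card : ℝ) ≤ C1 * F2 τ m h (tb β) * (1 + Real.log (1 / μ)) ^ Module.finrank ℚ M *
          (2 + ρ2) ^ ((Module.finrank ℚ M : ℝ) / 20) * (ni h * Wt (4 / 5) s (tb β)) := by
    intro β
    by_cases hβ : β ∈ Bk
    · obtain ⟨b1, b2, b3⟩ := hBk β hβ
      obtain ⟨h, g1, g2, g3, g4, g5⟩ := h1 s ρ1 ρ2 hCs hr β b1 b2
      have g6 := g5 (n β) (hnS β hβ)
      exact ⟨h, fun _ => ⟨g1, g2, g3, g4, g6.1, g6.2⟩⟩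
    · exact ⟨⊤, fun h => absurd h hβ⟩
  choose h hh using hex
  have key : ∀ (I : Ideal (𝓞 M)) (B' : Finset (Blk (𝓞 M))), B' ⊆ Bk → (∀ β ∈ B', h β = I) → ∀ θ : ℝ,
      ∑ β ∈ B', (F2 τ m (h β) (tb β) : ℝ) * Wt θ s (tb β) =
        ∑ b ∈ B'.image tb, (F2 τ m I b : ℝ) * Wt θ s b := by
    intro I B' hB' hI θ
    rw [Finset.sum_image]
    · exact Finset.sum_congr rfl fun β hβ => by rw [hI β hβ]
    · intro β hβ γ hγ he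
      exact cbs_inj (hBk β (hB' hβ)).1.2.1 (hBk γ (hB' hγ)).1.2.1 he
  have key2 : ∀ (I : Ideal (𝓞 M)) (B' : Finset (Blk (𝓞 M))), B' ⊆ Bk → B'.Nonempty → (∀ β ∈ B', h β = I) →
      Squarefree I ∧ IsCoprime I (cI τ I) ∧ ni I ≤ s ^ ((Module.finrank ℚ M : ℝ) / 50) ∧
      ∀ b ∈ B'.image tb, Bx C s ρ1 ρ2 b ∧ T3.All (fun x => x ∈ I) b ∧
        (∀ φ : M →+* ℂ, s ^ (2 - 1 / 50 : ℝ) ≤ sz φ (dt b)) ∧ E2 τ b ≠ 0 := by
    intro I B' hB' hne hI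
    have hall : ∀ b ∈ B'.image tb, Bx C s ρ1 ρ2 b ∧ T3.All (fun x => x ∈ I) b ∧
        (∀ φ : M →+* ℂ, s ^ (2 - 1 / 50 : ℝ) ≤ sz φ (dt b)) ∧ E2 τ b ≠ 0 := by
      intro b hb
      obtain ⟨β, hβ, rfl⟩ := Finset.mem_image.1 hb
      obtain ⟨b1, b2, b3⟩ := hBk β (hB' hβ)
      obtain ⟨g1, g2, g3, g4, g5⟩ := hh β (hB' hβ)
      rw [hI β hβ] at g4
      refine ⟨⟨b1.1.sb1, b1.1.sb2, b1.1.sb3⟩, g4, b3.1, ?_⟩
      rw [cbs_E b1.2.1]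
      exact b1.2.2.2.2
    obtain ⟨β, hβ⟩ := hne
    obtain ⟨b1, b2, b3⟩ := hBk β (hB' hβ)
    obtain ⟨g1, g2, g3, g4, g5⟩ := hh β (hB' hβ)
    rw [hI β hβ] at g1 g2 g3 g4
    refine ⟨g2, g3, ?_, hall⟩
    have e1 : dt (tb β) ≠ 0 := b1.2.2.2.1
    exact (ni_le_of_le (cn_le g4.1 g4.2.1 g4.2.2) (cn_ne e1)).trans b3.2
  obtain ⟨μ, hμdef⟩ : ∃ μ : ℝ, μ = (Real.log (2 + s) ^ (12 * (Module.finrank ℚ M + 2)))⁻¹ := ⟨_, rfl⟩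
  have hμ0 : 0 < μ := by rw [hμdef]; positivity
  have hμ1 : μ ≤ 1 := by rw [hμdef]; exact inv_le_one_of_one_le₀ (one_le_pow₀ hL)
  have hlogμ : (1 + Real.log (1 / μ)) ^ Module.finrank ℚ M ≤ C5 * Real.log (2 + s) ^ (1 / 16 : ℝ) := by
    rw [hμdef, one_div, inv_inv, Real.log_pow]
    exact h5 _ hL
  have hLL : Real.log (2 + s) ^ (1 / 16 : ℝ) * Real.log (2 + s) ^ (3 / 4 + 1 / 16 : ℝ) = Real.log (2 + s) ^ (7 / 8 : ℝ) := by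
    rw [← Real.rpow_add hL0]
    norm_num
  have hLe : Real.log (2 + s) ^ (3 / 4 + 1 / 16 : ℝ) ≤ Real.log (2 + s) ^ (7 / 8 : ℝ) :=
    Real.rpow_le_rpow_of_exponent_le hL (by norm_num)
  have hdis : ∀ B' : Finset (Blk (𝓞 M)), B' ⊆ Bk → ∀ β ∈ B', h β ≠ ⊥ := fun B' hB' β hβ => (hh β (hB' hβ)).1
  -- good blocks
  have good : ∀ G : Finset (Blk (𝓞 M)), G ⊆ Bk → (∀ β ∈ G, ∀ φ : M →+* ℂ,
      μ ^ 2 * s ^ 4 ≤ sz φ (E2 τ (tb β)) ∧ μ ^ 2 * s ^ 4 ≤ sz φ (dl2 τ (tb β))) →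
      ∑ β ∈ G, ((n β).card : ℝ) ≤ C1 * C5 * C6 * C2 * C4 * (s ^ (3 * Module.finrank ℚ M) *
        ρ1 ^ (1 / 4 : ℝ) * Real.log (2 + s) ^ (7 / 8 : ℝ)) := by
    intro G hG hGood
    have a1 : ∑ β ∈ G, ((n β).card : ℝ) ≤
        (C1 * (1 + Real.log (1 / μ)) ^ Module.finrank ℚ M * (2 + ρ2) ^ ((Module.finrank ℚ M : ℝ) / 20)) *
        ∑ β ∈ G, ni (h β) * ((F2 τ m (h β) (tb β) : ℝ) * Wt (4 / 5) s (tb β)) := by
      rw [Finset.mul_sum]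
      refine Finset.sum_le_sum fun β hβ => ?_
      refine ((hh β (hG hβ)).2.2.2.2.2 μ hμ0 hμ1 (hGood β hβ)).trans (le_of_eq ?_)
      ring
    have a2 : ∑ β ∈ G, ni (h β) * ((F2 τ m (h β) (tb β) : ℝ) * Wt (4 / 5) s (tb β)) ≤
        (C2 * s ^ (3 * Module.finrank ℚ M) * (ρ1 * ρ2) ^ (7 / 5 * (Module.finrank ℚ M : ℝ)) *
          Real.log (2 + s) ^ (3 / 4 + 1 / 16 : ℝ)) * C4 := by
      refine cbs_group h4 G h _ _ (by positivity) (hdis G hG) fun I hI B' hB' hne hBI => ?_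
      rw [key I B' (hB'.trans hG) hBI]
      obtain ⟨k1, k2, k3, k4⟩ := key2 I B' (hB'.trans hG) hne hBI
      refine (h2 s ρ1 ρ2 hs2' hr hρ I hI k1 k2 k3 _ k4).trans (le_of_eq ?_)
      ring
    have a3 : C1 * (1 + Real.log (1 / μ)) ^ Module.finrank ℚ M * (2 + ρ2) ^ ((Module.finrank ℚ M : ℝ) / 20) ≤
        C1 * (C5 * Real.log (2 + s) ^ (1 / 16 : ℝ)) * (2 + ρ2) ^ ((Module.finrank ℚ M : ℝ) / 20) := by
      refine mul_le_mul_of_nonneg_right ?_ (by positivity)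
      exact mul_le_mul_of_nonneg_left hlogμ hC1.le
    refine a1.trans ?_
    refine (mul_le_mul a3 a2 (Finset.sum_nonneg fun β _ => mul_nonneg (ni_nonneg _)
      (mul_nonneg (Nat.cast_nonneg _) (hWt _ _ _))) (by positivity)).trans ?_
    calc C1 * (C5 * Real.log (2 + s) ^ (1 / 16 : ℝ)) * (2 + ρ2) ^ ((Module.finrank ℚ M : ℝ) / 20) *
        ((C2 * s ^ (3 * Module.finrank ℚ M) * (ρ1 * ρ2) ^ (7 / 5 * (Module.finrank ℚ M : ℝ)) *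
          Real.log (2 + s) ^ (3 / 4 + 1 / 16 : ℝ)) * C4)
        = (C1 * C5 * C2 * C4 * s ^ (3 * Module.finrank ℚ M) *
          (Real.log (2 + s) ^ (1 / 16 : ℝ) * Real.log (2 + s) ^ (3 / 4 + 1 / 16 : ℝ))) *
          ((2 + ρ2) ^ ((Module.finrank ℚ M : ℝ) / 20) * (ρ1 * ρ2) ^ (7 / 5 * (Module.finrank ℚ M : ℝ))) := by ring
      _ ≤ (C1 * C5 * C2 * C4 * s ^ (3 * Module.finrank ℚ M) *
          (Real.log (2 + s) ^ (1 / 16 : ℝ) * Real.log (2 + s) ^ (3 / 4 + 1 / 16 : ℝ))) *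
          (C6 * ρ1 ^ (1 / 4 : ℝ)) := mul_le_mul_of_nonneg_left (h6 ρ1 ρ2 hr) (by positivity)
      _ = _ := by
        rw [hLL]
        ring
  -- bad blocks
  have bad : ∀ G : Finset (Blk (𝓞 M)), G ⊆ Bk → (∀ β ∈ G, ¬ ∀ φ : M →+* ℂ,
      μ ^ 2 * s ^ 4 ≤ sz φ (E2 τ (tb β)) ∧ μ ^ 2 * s ^ 4 ≤ sz φ (dl2 τ (tb β))) →
      ∑ β ∈ G, ((n β).card : ℝ) ≤ C1 * C3 * C7 * C4 * (s ^ (3 * Module.finrank ℚ M) *
        ρ1 ^ (1 / 4 : ℝ) * Real.log (2 + s) ^ (7 / 8 : ℝ)) := by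
    intro G hG hBad
    have a1 : ∑ β ∈ G, ((n β).card : ℝ) ≤
        (C1 * Real.log (2 + s) ^ Module.finrank ℚ M) *
        ∑ β ∈ G, ni (h β) * ((F2 τ m (h β) (tb β) : ℝ) * Wt (3 / 4) s (tb β)) := by
      rw [Finset.mul_sum]
      refine Finset.sum_le_sum fun β hβ => ?_
      refine ((hh β (hG hβ)).2.2.2.2.1).trans (le_of_eq ?_)
      ring
    have a2 : ∑ β ∈ G, ni (h β) * ((F2 τ m (h β) (tb β) : ℝ) * Wt (3 / 4) s (tb β)) ≤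
        (C3 * s ^ (3 * Module.finrank ℚ M) * (ρ1 * ρ2) ^ (3 / 2 * (Module.finrank ℚ M : ℝ)) *
          (μ ^ (1 / 12 : ℝ) * ρ1 ^ (-(1 / 3) : ℝ)) * Real.log (2 + s) ^ (3 / 4 + 1 / 16 : ℝ)) * C4 := by
      refine cbs_group h4 G h _ _ (by positivity) (hdis G hG) fun I hI B' hB' hne hBI => ?_
      rw [key I B' (hB'.trans hG) hBI]
      obtain ⟨k1, k2, k3, k4⟩ := key2 I B' (hB'.trans hG) hne hBI
      refine (h3 s ρ1 ρ2 μ hs3' hr hρ hμdef.ge hμ1 I hI k1 k2 k3 _ fun b hb => ?_).trans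
        (le_of_eq ?_)
      · obtain ⟨j1, j2, j3, j4⟩ := k4 b hb
        refine ⟨j1, j2, j3, j4, ?_⟩
        obtain ⟨β, hβ, rfl⟩ := Finset.mem_image.1 hb
        have j5 := hBad β (hB' hβ)
        push Not at j5
        obtain ⟨φ, hφ⟩ := j5
        refine ⟨φ, ?_⟩
        by_cases h7 : μ ^ 2 * s ^ 4 ≤ sz φ (E2 τ (tb β))
        · exact Or.inr (hφ h7)
        · exact Or.inl (not_le.1 h7)
      · ring
    refine a1.trans ?_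
    refine (mul_le_mul_of_nonneg_left a2 (by positivity)).trans ?_
    have e1 : Real.log (2 + s) ^ Module.finrank ℚ M * μ ^ (1 / 12 : ℝ) ≤ 1 := by
      rw [hμdef]
      exact cbs_mu _ _ hL
    have e3 := h7 ρ1 ρ2 hr
    calc C1 * Real.log (2 + s) ^ Module.finrank ℚ M *
        ((C3 * s ^ (3 * Module.finrank ℚ M) * (ρ1 * ρ2) ^ (3 / 2 * (Module.finrank ℚ M : ℝ)) *
          (μ ^ (1 / 12 : ℝ) * ρ1 ^ (-(1 / 3) : ℝ)) * Real.log (2 + s) ^ (3 / 4 + 1 / 16 : ℝ)) * C4)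
        = (C1 * C3 * C4 * s ^ (3 * Module.finrank ℚ M)) *
          ((Real.log (2 + s) ^ Module.finrank ℚ M * μ ^ (1 / 12 : ℝ)) *
          (((ρ1 * ρ2) ^ (3 / 2 * (Module.finrank ℚ M : ℝ)) * ρ1 ^ (-(1 / 3) : ℝ)) *
          Real.log (2 + s) ^ (3 / 4 + 1 / 16 : ℝ))) := by ring
      _ ≤ (C1 * C3 * C4 * s ^ (3 * Module.finrank ℚ M)) *
          (1 * ((C7 * ρ1 ^ (1 / 4 : ℝ)) * Real.log (2 + s) ^ (7 / 8 : ℝ))) := by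
        refine mul_le_mul_of_nonneg_left ?_ (by positivity)
        refine mul_le_mul e1 ?_ (by positivity) (by norm_num)
        exact mul_le_mul e3 hLe (by positivity) (by positivity)
      _ = _ := by ring
  rw [hn, ← Finset.sum_filter_add_sum_filter_not Bk (fun β => ∀ φ : M →+* ℂ,
      μ ^ 2 * s ^ 4 ≤ sz φ (E2 τ (tb β)) ∧ μ ^ 2 * s ^ 4 ≤ sz φ (dl2 τ (tb β)))]
  refine (add_le_add (good _ (Finset.filter_subset _ _) fun β hβ => (Finset.mem_filter.1 hβ).2)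
    (bad _ (Finset.filter_subset _ _) fun β hβ => (Finset.mem_filter.1 hβ).2)).trans (le_of_eq ?_)
  ring

end H38.AW
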