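import Pool.Agent.H88.AQ.Iface

/-!
# [H38 AW GEN] `Gen3Stmt` from `Los3Stmt`, `OlAStmt`; `Dg3Stmt` from `Los3Stmt`, `OdStmt` (W2#, MP_b39724; complete). File Pool/Agent/H38/AW/Gen.lean
-/

open scoped NumberField
open H88.A4 Pool.Agent.H67.WA H88.WS H88.AQ

noncomputable section

namespace H38.AW

variable {k M : Type} [Field k] [NumberField k] [Field M] [NumberField M] [Algebra k M]

private lemma cgen_bd {R R' : ℝ} {x : 𝓞 M} (h : Bd R x) (hR : R ≤ R') : Bd R' x :=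
  fun φ => (h φ).trans hR

private theorem cgen_one {R : ℝ} {x : 𝓞 M} (hx : x ≠ 0) (h : Bd R x) : 1 ≤ R := by
  by_contra hcon
  push Not at hcon
  have h1 := one_le_nz hx
  have h2 : nz x ≤ vol (fun _ : M →+* ℂ => R) := nz_le_vol h
  rw [vol_const] at h2
  obtain ⟨φ⟩ : Nonempty (M →+* ℂ) := inferInstance
  have h3 : 0 ≤ R := (norm_nonneg _).trans (h φ)
  have h4 : R ^ Module.finrank ℚ M < 1 := pow_lt_one₀ h3 hcon Module.finrank_pos.ne'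
  linarith

private theorem cgen_bx {C s ρ1 ρ2 : ℝ} {b : T3 M} (hC : 1 ≤ C) (hs : 0 < s) (h1 : 0 < ρ1)
    (h2 : 0 < ρ2) (h : Bx C s ρ1 ρ2 b) : Bx (C ^ 2) s ρ1 ρ2 b := by
  have hCC : C ≤ C ^ 2 := by nlinarith
  have h3 : C * s ≤ C ^ 2 * s := mul_le_mul_of_nonneg_right hCC hs.le
  exact ⟨cgen_bd h.1 (mul_le_mul_of_nonneg_right h3 (by positivity)),
    cgen_bd h.2.1 (mul_le_mul_of_nonneg_right h3 (by positivity)),
    cgen_bd h.2.2 (mul_le_mul_of_nonneg_right h3 (by positivity))⟩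

private theorem cgen_r2 {C s r1 r2 : ℝ} (hC : 1 ≤ C) (hs0 : 0 < s) (hs : 1 ≤ C * s) (hr1 : 0 < r1)
    (hr2 : 0 < r2) (h : r1 * r2 ^ 2 ≤ C) (hi : 1 ≤ C * s * r1 ^ 2) : r2 ≤ C ^ 2 * s := by
  have h4 : r2 ^ 4 ≤ (C ^ 2 * s) ^ 4 := by
    calc r2 ^ 4 = 1 * r2 ^ 4 := by ring
      _ ≤ (C * s * r1 ^ 2) * r2 ^ 4 := mul_le_mul_of_nonneg_right hi (by positivity)
      _ = C * s * (r1 * r2 ^ 2) ^ 2 := by ring
      _ ≤ C * s * C ^ 2 :=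
          mul_le_mul_of_nonneg_left (pow_le_pow_left₀ (by positivity) h 2) (by positivity)
      _ = C ^ 3 * s := by ring
      _ ≤ C ^ 3 * s * (C * s) ^ 3 := le_mul_of_one_le_right (by positivity) (one_le_pow₀ hs)
      _ = C ^ 6 * s ^ 4 := by ring
      _ ≤ C ^ 8 * s ^ 4 :=
          mul_le_mul_of_nonneg_right (pow_le_pow_right₀ hC (by norm_num)) (by positivity)
      _ = (C ^ 2 * s) ^ 4 := by ring
  exact (pow_le_pow_iff_left₀ hr2.le (by positivity) (by norm_num)).1 h4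

private lemma cgen_pow {C ρ κ a : ℝ} (hC : 1 ≤ C) (hρ : 0 < ρ) (hρC : ρ ≤ C) (hκ : 0 ≤ κ)
    (ha : κ ≤ a) : ρ ^ a ≤ C ^ a * ρ ^ κ := by
  have h1 : ρ ^ a = ρ ^ (a - κ) * ρ ^ κ := by
    rw [← Real.rpow_add hρ]
    congr 1
    ring
  have h2 : ρ ^ (a - κ) ≤ C ^ (a - κ) := Real.rpow_le_rpow hρ.le hρC (by linarith)
  have h3 : C ^ (a - κ) ≤ C ^ a := Real.rpow_le_rpow_of_exponent_le hC (by linarith)
  rw [h1]
  exact mul_le_mul_of_nonneg_right (h2.trans h3) (Real.rpow_nonneg hρ.le _)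

/-- `(ρ1 ρ2)^(2 a) ≤ (C ρ1)^a` -/
private theorem cgen_rr {C ρ1 ρ2 : ℝ} (hr : Rho C ρ1 ρ2) (a : ℝ) (ha : 0 ≤ a) :
    (ρ1 * ρ2) ^ (2 * a) ≤ C ^ a * ρ1 ^ a := by
  obtain ⟨h1, h2, h3, h4⟩ := hr
  have hρ2 : 0 < ρ2 := by linarith
  have hC0 : 0 < C := by linarith
  have h5 : (ρ1 * ρ2) ^ (2 : ℝ) ≤ C * ρ1 := by
    rw [Real.rpow_two]
    have e : (ρ1 * ρ2) ^ 2 = (ρ1 * ρ2 ^ 2) * ρ1 := by ring
    rw [e]
    exact mul_le_mul_of_nonneg_right h4 h1.le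
  rw [Real.rpow_mul (by positivity), ← Real.mul_rpow hC0.le h1.le]
  exact Real.rpow_le_rpow (by positivity) h5 ha

theorem gen3_of (hL : Los3Stmt k M) (hO : OlAStmt M) : Gen3Stmt k M := by
  classical
  intro τ hτ m hm C hC A ε hε
  obtain ⟨C1, hC1, h1⟩ := hL τ hτ m hm C hC A (ε / 2) (by positivity)
  obtain ⟨C2, hC2, h2⟩ := hO (3 / 4) (by norm_num) (by norm_num) (C ^ 2) (one_le_pow₀ hC) (ε / 2) (by positivity)
  obtain ⟨d, hd⟩ : ∃ d : ℕ, d = Module.finrank ℚ M := ⟨_, rfl⟩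
  rw [← hd] at h2 ⊢
  have hd0 : (0 : ℝ) ≤ d := Nat.cast_nonneg _
  have hC0 : 0 < C := by linarith
  obtain ⟨E1, hE1⟩ : ∃ E1 : ℝ, E1 = C ^ (3 / 4 * (d : ℝ)) := ⟨_, rfl⟩
  obtain ⟨E2, hE2⟩ : ∃ E2 : ℝ, E2 = C ^ ((d : ℝ) / 2) * C ^ (3 * (d : ℝ)) := ⟨_, rfl⟩
  have hE10 : 0 < E1 := by rw [hE1]; positivity
  have hE20 : 0 < E2 := by rw [hE2]; positivity
  refine ⟨C1 * C2 * (E1 + E2), by positivity, fun s ρ1 ρ2 hs1 hRho S hS => ?_⟩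
  have hs0 : 0 < s := by
    by_contra hcon
    push Not at hcon
    nlinarith
  obtain ⟨hρ0, hρ12, hρC, hρρ⟩ := id hRho
  have hρ20 : 0 < ρ2 := by linarith
  rcases S.eq_empty_or_nonempty with rfl | ⟨x0, hx0⟩
  · rw [Finset.card_empty, Nat.cast_zero]
    positivity
  have hi : 1 ≤ C * s * ρ1 ^ 2 := cgen_one (hS x0 hx0).2.1.2.2.1 (hS x0 hx0).2.1.1.sb1
  have hr2 := cgen_r2 hC hs0 hs1 hρ0 hρ20 hρρ hi
  have h3 := h1 s ρ1 ρ2 hs1 hRho S (S.image fun x => tb x.2) (fun x hx =>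
    ⟨hS x hx, Finset.mem_image_of_mem _ hx⟩)
  have hCC : C ≤ C ^ 2 := by nlinarith
  have h4 := h2 s ρ1 ρ2 (by nlinarith) ⟨hρ0, hρ12, hρC.trans hCC, hρρ.trans hCC⟩ hr2
    (S.image fun x => tb x.2) (by
      intro b hb
      obtain ⟨x, hx, rfl⟩ := Finset.mem_image.1 hb
      have a1 := (hS x hx).2.1
      refine ⟨cgen_bx hC hs0 hρ0 hρ20 ⟨a1.1.sb1, a1.1.sb2, a1.1.sb3⟩, a1.2.2.1, ?_⟩
      rw [dt_tb]
      exact a1.2.2.2.1)
  refine h3.trans ?_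
  have hsε : s ^ (ε / 2) * s ^ (ε / 2) = s ^ ε := by
    rw [← Real.rpow_add hs0]
    congr 1
    ring
  have hsp : 0 < s ^ (ε / 2) := Real.rpow_pos_of_pos hs0 _
  have k1 : (ρ1 * ρ2) ^ ((3 - 2 * (3 / 4)) * (d : ℝ)) ≤ E1 * ρ1 ^ (3 / 4 * (d : ℝ)) := by
    have := cgen_rr hRho (3 / 4 * (d : ℝ)) (by positivity)
    rw [hE1]
    refine le_trans (le_of_eq ?_) this
    congr 1
    ring
  have k2 : s ^ ((1 + 2 * (3 / 4)) * (d : ℝ)) * ρ1 ^ (2 * d) ≤ s ^ (3 * d) * (E2 * ρ1 ^ (3 / 4 * (d : ℝ))) := by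
    have e1 : s ^ ((1 + 2 * (3 / 4)) * (d : ℝ)) = s ^ (3 * d) * s ^ (-((d : ℝ) / 2)) := by
      rw [← Real.rpow_natCast, ← Real.rpow_add hs0]
      congr 1
      push_cast
      ring
    have e2 : s ^ (-((d : ℝ) / 2)) ≤ C ^ ((d : ℝ) / 2) * ρ1 ^ (d : ℝ) := by
      have g1 : s⁻¹ ≤ C * ρ1 ^ 2 := by
        rw [inv_le_iff_one_le_mul₀ hs0]
        linarith
      have g2 : (s⁻¹) ^ ((d : ℝ) / 2) ≤ (C * ρ1 ^ 2) ^ ((d : ℝ) / 2) :=
        Real.rpow_le_rpow (by positivity) g1 (by positivity)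
      rw [Real.rpow_neg hs0.le, ← Real.inv_rpow hs0.le]
      refine g2.trans (le_of_eq ?_)
      rw [Real.mul_rpow hC0.le (by positivity), ← Real.rpow_natCast ρ1 2, ← Real.rpow_mul hρ0.le]
      congr 2
      push_cast
      ring
    have e3 : ρ1 ^ (d : ℝ) * ρ1 ^ (2 * d) ≤ C ^ (3 * (d : ℝ)) * ρ1 ^ (3 / 4 * (d : ℝ)) := by
      have g1 := cgen_pow (κ := 3 / 4 * (d : ℝ)) (a := 3 * (d : ℝ)) hC hρ0 hρC (by positivity) (by linarith)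
      refine le_trans (le_of_eq ?_) g1
      rw [← Real.rpow_natCast, ← Real.rpow_add hρ0]
      congr 1
      push_cast
      ring
    rw [e1, mul_assoc]
    refine mul_le_mul_of_nonneg_left ?_ (by positivity)
    calc s ^ (-((d : ℝ) / 2)) * ρ1 ^ (2 * d) ≤ C ^ ((d : ℝ) / 2) * ρ1 ^ (d : ℝ) * ρ1 ^ (2 * d) :=
          mul_le_mul_of_nonneg_right e2 (by positivity)
      _ = C ^ ((d : ℝ) / 2) * (ρ1 ^ (d : ℝ) * ρ1 ^ (2 * d)) := by ring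
      _ ≤ C ^ ((d : ℝ) / 2) * (C ^ (3 * (d : ℝ)) * ρ1 ^ (3 / 4 * (d : ℝ))) :=
          mul_le_mul_of_nonneg_left e3 (by positivity)
      _ = E2 * ρ1 ^ (3 / 4 * (d : ℝ)) := by
          rw [hE2]
          ring
  calc C1 * s ^ (ε / 2) * ∑ b ∈ S.image fun x => tb x.2, ni (cn b) * Wt (3 / 4) s b
      ≤ C1 * s ^ (ε / 2) * (C2 * s ^ (ε / 2) * (s ^ (3 * d) * (E1 * ρ1 ^ (3 / 4 * (d : ℝ))) +
          s ^ (3 * d) * (E2 * ρ1 ^ (3 / 4 * (d : ℝ))))) := by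
        refine mul_le_mul_of_nonneg_left (h4.trans ?_) (by positivity)
        refine mul_le_mul_of_nonneg_left (add_le_add ?_ k2) (by positivity)
        exact mul_le_mul_of_nonneg_left k1 (by positivity)
    _ = C1 * C2 * (E1 + E2) * (s ^ (ε / 2) * s ^ (ε / 2)) * s ^ (3 * d) * ρ1 ^ (3 / 4 * (d : ℝ)) := by ring
    _ = _ := by rw [hsε]

theorem dg3_of (hL : Los3Stmt k M) (hO : OdStmt M) : Dg3Stmt k M := by
  classical
  intro τ hτ m hm C hC A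
  obtain ⟨C2, κ, hC2, hκ, h2⟩ := hO (3 / 4) (by norm_num) (by norm_num) C hC
  obtain ⟨C1, hC1, h1⟩ := hL τ hτ m hm C hC A (κ / 2) (by positivity)
  obtain ⟨d, hd⟩ : ∃ d : ℕ, d = Module.finrank ℚ M := ⟨_, rfl⟩
  rw [← hd] at h2 ⊢
  refine ⟨C1 * C2, κ / 2, by positivity, by positivity, fun s ρ1 ρ2 hs1 hRho hρ S hS => ?_⟩
  have hs0 : 0 < s := by linarith
  have h3 := h1 s ρ1 ρ2 (by nlinarith) hRho S (S.image fun x => tb x.2) (fun x hx =>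
    ⟨(hS x hx).1, Finset.mem_image_of_mem _ hx⟩)
  have h4 := h2 s ρ1 ρ2 hs1 hRho ((Real.rpow_le_rpow_of_exponent_le hs1 (by norm_num)).trans hρ)
    (S.image fun x => tb x.2) (by
      intro b hb
      obtain ⟨x, hx, rfl⟩ := Finset.mem_image.1 hb
      obtain ⟨⟨-, a1, -, -⟩, a5⟩ := hS x hx
      refine ⟨⟨a1.1.sb1, a1.1.sb2, a1.1.sb3⟩, a1.2.2.1, ?_, ?_⟩
      · rw [dt_tb]
        exact a1.2.2.2.1
      · unfold Ndg at a5
        rw [← hd] at a5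
        by_cases g1 : ∃ φ : M →+* ℂ, sz φ (dt (tb x.2)) ≤ s ^ (2 - 1 / 50 : ℝ)
        · exact Or.inl g1
        · right
          push Not at g1
          by_contra g2
          push Not at g2
          exact a5 ⟨fun φ => (g1 φ).le, g2.le⟩)
  refine h3.trans ?_
  have hsp : 0 < s ^ (κ / 2) := Real.rpow_pos_of_pos hs0 _
  calc C1 * s ^ (κ / 2) * ∑ b ∈ S.image fun x => tb x.2, ni (cn b) * Wt (3 / 4) s b
      ≤ C1 * s ^ (κ / 2) * (C2 * s ^ (3 * (d : ℝ) - κ)) := mul_le_mul_of_nonneg_left h4 (by positivity)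
    _ = C1 * C2 * (s ^ (κ / 2) * s ^ (3 * (d : ℝ) - κ)) := by ring
    _ = C1 * C2 * (s ^ (3 * d) * s ^ (-(κ / 2))) := by
        congr 1
        rw [← Real.rpow_add hs0, ← Real.rpow_natCast, ← Real.rpow_add hs0]
        congr 1
        push_cast
        ring
    _ = _ := by ring

end H38.AW
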