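import Pool.Agent.H88.AQ.Iface

/-!
# [H38 AW LOS] `Los3Stmt` from `Completions2Stmt` (W2#, MP_b39724; complete). File Pool/Agent/H38/AW/Los.lean
-/

open scoped NumberField
open H88.A4 Pool.Agent.H67.WA H88.WS H88.AQ

noncomputable section

namespace H38.AW

variable {k M : Type} [Field k] [NumberField k] [Field M] [NumberField M] [Algebra k M]

private theorem clos_wt (θ s : ℝ) (b : T3 M) : 0 ≤ Wt θ s b :=
  Finset.prod_nonneg fun φ _ => Real.rpow_nonneg (div_nonneg (sz_nonneg φ _) (sq_nonneg s)) _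

private theorem clos_D {x y z : 𝓞 M} {φ : M →+* ℂ} {a b c : ℝ} (h1 : sz φ x ≤ a) (h2 : sz φ y ≤ b) (h3 : sz φ z ≤ c) :
    sz φ (x * y - z ^ 2) ≤ a * b + c ^ 2 := by
  refine (sz_sub φ _ _).trans ?_
  rw [sz_mul, sz_pow]
  have ha : 0 ≤ a := (sz_nonneg φ x).trans h1
  have h4 := mul_le_mul h1 h2 (sz_nonneg φ y) ha
  have h5 := pow_le_pow_left₀ (sz_nonneg φ z) h3 2
  linarith

/-- `Dt ≤ 4 C^4` -/
private theorem clos_dt {C s ρ1 ρ2 : ℝ} (hC : 1 ≤ C) (hs0 : 0 < s) (hρ : Rho C ρ1 ρ2) {β : Blk (𝓞 M)}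
    (hS : Sz C s s ρ1 ρ2 β) (φ : M →+* ℂ) : Dt s s β φ ≤ 4 * C ^ 4 := by
  obtain ⟨hρ0, hρ12, hρC, hρρ⟩ := hρ
  have hC0 : 0 < C := by linarith
  have hρ20 : 0 < ρ2 := by linarith
  have hP : (ρ1 * ρ2) ^ 2 ≤ C ^ 2 := by
    have h1 : (ρ1 * ρ2) ^ 2 = ρ1 * (ρ1 * ρ2 ^ 2) := by ring
    have h2 : C ^ 2 = C * C := by ring
    rw [h1, h2]
    exact mul_le_mul hρC hρρ (by positivity) hC0.le
  have h1 : sz φ β.b1 ≤ C * s * ρ1 ^ 2 := hS.sb1 φ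
  have h2 : sz φ β.b2 ≤ C * s * (ρ1 * ρ2) := hS.sb2 φ
  have h3 : sz φ β.b3 ≤ C * s * ρ2 ^ 2 := hS.sb3 φ
  have k1 : sz φ β.c1 ≤ C * s * ρ1 ^ 2 := hS.sc1 φ
  have k2 : sz φ β.c2 ≤ C * s * (ρ1 * ρ2) := hS.sc2 φ
  have k3 : sz φ β.c3 ≤ C * s * ρ2 ^ 2 := hS.sc3 φ
  have e1 : sz φ β.D1 ≤ 2 * C ^ 4 * s ^ 2 := by
    refine (clos_D h1 h3 h2).trans ?_
    have : C * s * ρ1 ^ 2 * (C * s * ρ2 ^ 2) + (C * s * (ρ1 * ρ2)) ^ 2 = 2 * C ^ 2 * s ^ 2 * (ρ1 * ρ2) ^ 2 := by ring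
    rw [this]
    calc 2 * C ^ 2 * s ^ 2 * (ρ1 * ρ2) ^ 2 ≤ 2 * C ^ 2 * s ^ 2 * C ^ 2 := mul_le_mul_of_nonneg_left hP (by positivity)
      _ = 2 * C ^ 4 * s ^ 2 := by ring
  have e3 : sz φ β.D3 ≤ 2 * C ^ 4 * s ^ 2 := by
    refine (clos_D k1 k3 k2).trans ?_
    have : C * s * ρ1 ^ 2 * (C * s * ρ2 ^ 2) + (C * s * (ρ1 * ρ2)) ^ 2 = 2 * C ^ 2 * s ^ 2 * (ρ1 * ρ2) ^ 2 := by ring
    rw [this]
    calc 2 * C ^ 2 * s ^ 2 * (ρ1 * ρ2) ^ 2 ≤ 2 * C ^ 2 * s ^ 2 * C ^ 2 := mul_le_mul_of_nonneg_left hP (by positivity)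
      _ = 2 * C ^ 4 * s ^ 2 := by ring
  have e2 : sz φ β.D2 ≤ 4 * C ^ 4 * (s * s) := by
    unfold Blk.D2
    refine (sz_sub φ _ _).trans ((add_le_add (sz_add φ _ _) le_rfl).trans ?_)
    rw [sz_mul, sz_mul, sz_mul, sz_mul, sz_two]
    have m1 : sz φ β.b1 * sz φ β.c3 ≤ C * s * ρ1 ^ 2 * (C * s * ρ2 ^ 2) :=
      mul_le_mul h1 k3 (sz_nonneg φ _) (by positivity)
    have m2 : sz φ β.b3 * sz φ β.c1 ≤ C * s * ρ2 ^ 2 * (C * s * ρ1 ^ 2) :=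
      mul_le_mul h3 k1 (sz_nonneg φ _) (by positivity)
    have m3 : sz φ β.b2 * sz φ β.c2 ≤ C * s * (ρ1 * ρ2) * (C * s * (ρ1 * ρ2)) :=
      mul_le_mul h2 k2 (sz_nonneg φ _) (by positivity)
    have m4 : 4 * C ^ 2 * (s * s) * (ρ1 * ρ2) ^ 2 ≤ 4 * C ^ 2 * (s * s) * C ^ 2 :=
      mul_le_mul_of_nonneg_left hP (by positivity)
    nlinarith
  have hC4 : 0 < C ^ 4 := by positivity
  unfold Dt
  refine max_le ?_ (max_le ?_ ?_)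
  · rw [div_le_iff₀ (by positivity)]
    change sz φ β.D1 ≤ _
    have : 2 * C ^ 4 * s ^ 2 ≤ 4 * C ^ 4 * s ^ 2 := by gcongr; norm_num
    linarith
  · rw [div_le_iff₀ (by positivity)]
    exact e2
  · rw [div_le_iff₀ (by positivity)]
    change sz φ β.D3 ≤ _
    have : 2 * C ^ 4 * s ^ 2 ≤ 4 * C ^ 4 * s ^ 2 := by gcongr; norm_num
    linarith

private theorem clos_all {β : Blk (𝓞 M)} {X Y : ℝ} (hXY : X ≤ Y) (h : β.All (Bd X)) :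
    β.All (Bd Y) := by
  obtain ⟨h1, h2, h3, h4, h5, h6⟩ := h
  exact ⟨fun φ => (h1 φ).trans hXY, fun φ => (h2 φ).trans hXY, fun φ => (h3 φ).trans hXY,
    fun φ => (h4 φ).trans hXY, fun φ => (h5 φ).trans hXY, fun φ => (h6 φ).trans hXY⟩

private theorem clos_rep {τ : M ≃ₐ[k] M} {β : Blk (𝓞 M)} {u : 𝓞 M} {X Y : ℝ} (hXY : X ≤ Y)
    (h : Rep2 τ X β u) : Rep2 τ Y β u := by
  obtain ⟨π, r, r', hc, ⟨h1, h2, h3, h4⟩, h5⟩ := h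
  exact ⟨π, r, r', hc, ⟨fun φ => (h1 φ).trans hXY, fun φ => (h2 φ).trans hXY,
    fun φ => (h3 φ).trans hXY, fun φ => (h4 φ).trans hXY⟩, h5⟩

private theorem clos_inj {τ : M ≃ₐ[k] M} {β γ : Blk (𝓞 M)} (hβ : β.Cj τ) (hγ : γ.Cj τ) (h : tb β = tb γ) : β = γ := by
  have h1 : β.b1 = γ.b1 := congrArg (fun b : T3 M => b.1) h
  have h2 : β.b2 = γ.b2 := congrArg (fun b : T3 M => b.2.1) h
  have h3 : β.b3 = γ.b3 := congrArg (fun b : T3 M => b.2.2) h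
  refine Blk.ext h1 h2 h3 ?_ ?_ ?_
  · rw [hβ.1, hγ.1, h1]
  · rw [hβ.2.1, hγ.2.1, h2]
  · rw [hβ.2.2, hγ.2.2, h3]

/-- one block -/
private theorem clos_one (h : Completions2Stmt k M) (τ : M ≃ₐ[k] M) (hτ : Invo k M τ) (m : ℕ) (hm : m ≠ 0) (C : ℝ)
    (hC : 1 ≤ C) (A : ℕ) (ε : ℝ) (hε : 0 < ε) :
    ∃ C' : ℝ, 0 < C' ∧ ∀ s ρ1 ρ2 : ℝ, 1 ≤ C * s → Rho C ρ1 ρ2 → ∀ β : Blk (𝓞 M), Main2 τ C s ρ1 ρ2 β →
      β.All (Bd (Hp C A s)) → ∀ S : Finset (𝓞 M),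
        (∀ u ∈ S, Adm m C s s u (tO τ u) ∧ Rep2 τ (Hp C A s) β u) →
        (S.card : ℝ) ≤ C' * s ^ ε * (ni (cn (tb β)) * Wt (3 / 4) s (tb β)) := by
  obtain ⟨a, ha⟩ : ∃ a : ℝ, a = ε / ((A : ℝ) + 1) := ⟨_, rfl⟩
  have ha0 : 0 < a := by
    rw [ha]
    positivity
  obtain ⟨C1, hC1, h1⟩ := h τ hτ m hm C hC a ha0
  have hC0 : 0 < C := by linarith
  obtain ⟨C4, hC4⟩ : ∃ C4 : ℝ, C4 = ((4 * C ^ 4) ^ (3 / 4 : ℝ)) ^ Module.finrank ℚ M := ⟨_, rfl⟩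
  have hC40 : 0 < C4 := by
    rw [hC4]
    positivity
  refine ⟨C1 * (C * (C + 1)) ^ ε * (1 + C4), by positivity, ?_⟩
  intro s ρ1 ρ2 hs1 hRho β hβ hAll S hS
  have hs0 : 0 < s := by
    by_contra hcon
    push Not at hcon
    nlinarith
  obtain ⟨B, hB⟩ : ∃ B : ℝ, B = C * (1 + s) := ⟨_, rfl⟩
  have hB1 : 1 ≤ B := by
    rw [hB]
    nlinarith
  have hBs : s ≤ B := by
    rw [hB]
    nlinarith
  have hH : Hp C A s ≤ B ^ (A + 1) := by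
    unfold Hp
    rw [← hB]
    exact pow_le_pow_right₀ hB1 (Nat.le_succ A)
  have hH1 : 1 ≤ B ^ (A + 1) := one_le_pow₀ hB1
  have hHs : s ≤ B ^ (A + 1) := hBs.trans (le_self_pow₀ hB1 (Nat.succ_ne_zero A))
  obtain ⟨hSz, hCj, hb1, hD1, hE⟩ := id hβ
  obtain ⟨g, hgs, hgb, h2⟩ := h1 s (B ^ (A + 1)) hs0 hHs hH1 β hCj hE hD1 (clos_all hH hAll)
  have h3 := h2 S (fun u hu => ⟨(hS u hu).1, clos_rep hH (hS u hu).2⟩)
  have hb0 : dt (tb β) ≠ 0 := by rw [dt_tb]; exact hD1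
  have hni : ni g ≤ ni (cn (tb β)) := ni_le_of_le (cn_le hgb.1 hgb.2.1 hgb.2.2) (cn_ne hb0)
  have hcn1 : 1 ≤ ni (cn (tb β)) := one_le_ni (cn_ne hb0)
  -- the size of `H`
  have hHa : (B ^ (A + 1)) ^ a ≤ (C * (C + 1)) ^ ε * s ^ ε := by
    have e1 : (B ^ (A + 1)) ^ a = B ^ ε := by
      rw [← Real.rpow_natCast, ← Real.rpow_mul (by linarith), ha]
      congr 1
      push_cast
      field_simp
    rw [e1, ← Real.mul_rpow (by positivity) hs0.le]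
    refine Real.rpow_le_rpow (by linarith) ?_ hε.le
    rw [hB]
    nlinarith
  -- the product
  have hD : ∀ φ : M →+* ℂ, 0 < sz φ β.D1 / s ^ 2 := fun φ => div_pos (sz_pos φ hD1) (by positivity)
  have hDt0 : ∀ φ : M →+* ℂ, sz φ β.D1 / s ^ 2 ≤ Dt s s β φ := fun φ => le_max_left _ _
  have hprod : ∏ φ : M →+* ℂ, Dt s s β φ ^ (-(3 / 4) : ℝ) ≤ Wt (3 / 4) s (tb β) := by
    unfold Wt
    refine Finset.prod_le_prod (fun φ _ => Real.rpow_nonneg ((hD φ).le.trans (hDt0 φ)) _) fun φ _ => ?_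
    rw [dt_tb]
    exact Real.rpow_le_rpow_of_nonpos (hD φ) (hDt0 φ) (by norm_num)
  have hone : 1 ≤ C4 * Wt (3 / 4) s (tb β) := by
    rw [hC4, ← vol_const (K := M)]
    unfold Wt vol
    rw [← Finset.prod_mul_distrib]
    have e0 : ∀ φ ∈ (Finset.univ : Finset (M →+* ℂ)), (1 : ℝ) ≤ (4 * C ^ 4) ^ (3 / 4 : ℝ) * (sz φ (dt (tb β)) / s ^ 2) ^ (-(3 / 4) : ℝ) := by
      intro φ _
      rw [dt_tb]
      have e1 : (4 * C ^ 4) ^ (-(3 / 4) : ℝ) ≤ (sz φ β.D1 / s ^ 2) ^ (-(3 / 4) : ℝ) :=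
        Real.rpow_le_rpow_of_nonpos (hD φ) ((hDt0 φ).trans (clos_dt hC hs0 hRho hSz φ)) (by norm_num)
      have e2 : (4 * C ^ 4) ^ (3 / 4 : ℝ) * (4 * C ^ 4) ^ (-(3 / 4) : ℝ) = 1 := by
        rw [← Real.rpow_add (by positivity)]
        norm_num
      rw [← e2]
      exact mul_le_mul_of_nonneg_left e1 (by positivity)
    calc (1 : ℝ) = ∏ _φ : M →+* ℂ, (1 : ℝ) := by rw [Finset.prod_const_one]
      _ ≤ _ := Finset.prod_le_prod (fun _ _ => by norm_num) e0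
  have hW := clos_wt (3 / 4) s (tb β)
  have hgn : (Ideal.absNorm g : ℝ) = ni g := rfl
  have hsum : 1 + (Ideal.absNorm g : ℝ) * ∏ φ : M →+* ℂ, Dt s s β φ ^ (-(3 / 4) : ℝ) ≤
      (1 + C4) * (ni (cn (tb β)) * Wt (3 / 4) s (tb β)) := by
    rw [hgn]
    have e1 : ni g * ∏ φ : M →+* ℂ, Dt s s β φ ^ (-(3 / 4) : ℝ) ≤ ni (cn (tb β)) * Wt (3 / 4) s (tb β) :=
      mul_le_mul hni hprod (Finset.prod_nonneg fun φ _ => Real.rpow_nonneg ((hD φ).le.trans (hDt0 φ)) _) (by linarith)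
    have e2 : C4 * Wt (3 / 4) s (tb β) ≤ C4 * (ni (cn (tb β)) * Wt (3 / 4) s (tb β)) := by
      refine mul_le_mul_of_nonneg_left ?_ hC40.le
      exact le_mul_of_one_le_left hW hcn1
    linarith
  refine h3.trans ?_
  have hsp : 0 ≤ s ^ ε := Real.rpow_nonneg hs0.le _
  have hnn : 0 ≤ ni (cn (tb β)) * Wt (3 / 4) s (tb β) := mul_nonneg (by linarith) hW
  calc C1 * (B ^ (A + 1)) ^ a * (1 + (Ideal.absNorm g : ℝ) * ∏ φ : M →+* ℂ, Dt s s β φ ^ (-(3 / 4) : ℝ))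
      ≤ C1 * ((C * (C + 1)) ^ ε * s ^ ε) * ((1 + C4) * (ni (cn (tb β)) * Wt (3 / 4) s (tb β))) := by
        refine mul_le_mul (mul_le_mul_of_nonneg_left hHa hC1.le) hsum ?_ (by positivity)
        refine add_nonneg zero_le_one (mul_nonneg (Nat.cast_nonneg _) ?_)
        exact Finset.prod_nonneg fun φ _ => Real.rpow_nonneg ((hD φ).le.trans (hDt0 φ)) _
    _ = _ := by ring

theorem los3_of (h : Completions2Stmt k M) : Los3Stmt k M := by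
  classical
  intro τ hτ m hm C hC A ε hε
  obtain ⟨C', hC', h1⟩ := clos_one h τ hτ m hm C hC A ε hε
  refine ⟨C', hC', fun s ρ1 ρ2 hs1 hRho S T hS => ?_⟩
  have hs0 : 0 < s := by
    by_contra hcon
    push Not at hcon
    nlinarith
  have h2 : (S.card : ℝ) = ∑ b ∈ T, ((S.filter fun x => tb x.2 = b).card : ℝ) := by
    have := Finset.card_eq_sum_card_fiberwise (s := S) (f := fun x : 𝓞 M × Blk (𝓞 M) => tb x.2)
      (t := T) (fun x hx => (hS x (Finset.mem_coe.1 hx)).2)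
    exact_mod_cast this
  rw [h2, Finset.mul_sum]
  refine Finset.sum_le_sum fun b hb => ?_
  rcases (S.filter fun x => tb x.2 = b).eq_empty_or_nonempty with h4 | ⟨x0, hx0⟩
  · rw [h4, Finset.card_empty, Nat.cast_zero]
    have h5 := ni_nonneg (cn b)
    have h7 := clos_wt (3 / 4) s b
    have h8 : 0 ≤ s ^ ε := Real.rpow_nonneg hs0.le _
    positivity
  · obtain ⟨hx0S, hx0b⟩ := Finset.mem_filter.1 hx0
    have hx1 := (hS x0 hx0S).1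
    have hsame : ∀ x ∈ S.filter (fun x => tb x.2 = b), x.2 = x0.2 := by
      intro x hx
      obtain ⟨g1, g2⟩ := Finset.mem_filter.1 hx
      exact clos_inj (hS x g1).1.2.1.2.1 hx1.2.1.2.1 (g2.trans hx0b.symm)
    have hinj : Set.InjOn (fun x : 𝓞 M × Blk (𝓞 M) => x.1)
        (S.filter (fun x => tb x.2 = b) : Set (𝓞 M × Blk (𝓞 M))) := by
      intro x hx y hy hxy
      have h5 := hsame x (Finset.mem_coe.1 hx)
      have h6 := hsame y (Finset.mem_coe.1 hy)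
      exact Prod.ext hxy (h5.trans h6.symm)
    have h5 := Finset.card_image_of_injOn hinj
    rw [← h5]
    have h9 := h1 s ρ1 ρ2 hs1 hRho x0.2 hx1.2.1 hx1.2.2.1
    rw [hx0b] at h9
    refine h9 _ ?_
    intro u hu
    obtain ⟨x, hx, rfl⟩ := Finset.mem_image.1 hu
    have h6 := hsame x hx
    obtain ⟨g1, -, -, g4⟩ := (hS x (Finset.mem_filter.1 hx).1).1
    rw [h6] at g4
    exact ⟨g1, g4⟩

end H38.AW
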