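import Pool.Agent.H88.AQ.Iface

/-!
# [H38 AW MAI] `Main3Stmt` from `Bs3Stmt`, `Gen3Stmt`, `Dg3Stmt` (W2#, MP_b39724; complete). File Pool/Agent/H38/AW/Mai.lean
-/

open scoped NumberField
open H88.A4 Pool.Agent.H67.WA H88.WS H88.AQ

noncomputable section

namespace H38.AW

variable {k M : Type} [Field k] [NumberField k] [Field M] [NumberField M] [Algebra k M]

private lemma cmai_pow {C ρ κ a : ℝ} (hC : 1 ≤ C) (hρ : 0 < ρ) (hρC : ρ ≤ C) (hκ : 0 ≤ κ)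
    (ha : κ ≤ a) : ρ ^ a ≤ C ^ a * ρ ^ κ := by
  have h1 : ρ ^ a = ρ ^ (a - κ) * ρ ^ κ := by
    rw [← Real.rpow_add hρ]
    congr 1
    ring
  have h2 : ρ ^ (a - κ) ≤ C ^ (a - κ) := Real.rpow_le_rpow hρ.le hρC (by linarith)
  have h3 : C ^ (a - κ) ≤ C ^ a := Real.rpow_le_rpow_of_exponent_le hC (by linarith)
  rw [h1]
  exact mul_le_mul_of_nonneg_right (h2.trans h3) (Real.rpow_nonneg hρ.le _)

private lemma cmai_sav {s ρ κ κi : ℝ} (hs : 1 ≤ s) (hρ : s ^ (-(1 / 200) : ℝ) ≤ ρ) (hκ : 0 ≤ κ)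
    (h : κ ≤ 200 * κi) : s ^ (-κi) ≤ ρ ^ κ := by
  have hs0 : 0 < s := by linarith
  have h1 : s ^ (-κi) ≤ s ^ (-(1 / 200) * κ : ℝ) :=
    Real.rpow_le_rpow_of_exponent_le hs (by linarith)
  have h2 : s ^ (-(1 / 200) * κ : ℝ) = (s ^ (-(1 / 200) : ℝ)) ^ κ := Real.rpow_mul hs0.le _ _
  rw [h2] at h1
  exact h1.trans (Real.rpow_le_rpow (Real.rpow_nonneg hs0.le _) hρ hκ)

theorem main3_of (h1 : Bs3Stmt k M) (h2 : Gen3Stmt k M) (h3 : Dg3Stmt k M) : Main3Stmt k M := by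
  classical
  intro τ ω hω m0 hm0 C hC A
  obtain ⟨C1, s1, hC1, hs1, hb⟩ := h1 τ ω hω m0 hm0 C hC A
  obtain ⟨C2, hC2, hg⟩ := h2 τ hω.1 m0 hm0 C hC A (1 / 800) (by norm_num)
  obtain ⟨C3, κ1, hC3, hκ1, hd⟩ := h3 τ hω.1 m0 hm0 C hC A
  obtain ⟨d, hdd⟩ : ∃ d : ℕ, d = Module.finrank ℚ M := ⟨_, rfl⟩
  have hd1 : (1 : ℝ) ≤ d := by
    rw [hdd]
    exact_mod_cast (Module.finrank_pos : 0 < Module.finrank ℚ M)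
  rw [← hdd] at hb hg hd
  rw [← hdd]
  obtain ⟨κ, hκd⟩ : ∃ κ : ℝ, κ = min (1 / 4) (200 * κ1) := ⟨_, rfl⟩
  have hκ0 : 0 < κ := by
    rw [hκd]
    exact lt_min (by norm_num) (by linarith)
  have hκh : κ ≤ 1 / 4 := hκd ▸ min_le_left _ _
  have hκ1' : κ ≤ 200 * κ1 := hκd ▸ min_le_right _ _
  have hC0 : 0 < C := by linarith
  have hs10 : 0 < s1 := by linarith
  obtain ⟨l2, hl2⟩ : ∃ l2 : ℝ, l2 = Real.log 2 := ⟨_, rfl⟩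
  have hl20 : 0 < l2 := hl2 ▸ Real.log_pos (by norm_num)
  obtain ⟨D0, hD0⟩ : ∃ D0 : ℝ, D0 = C2 * s1 ^ (1 / 800 : ℝ) * C ^ (3 / 4 * (d : ℝ)) +
    C2 * C ^ (3 / 4 * (d : ℝ) - 1 / 4) + C3 := ⟨_, rfl⟩
  have hD00 : 0 < D0 := by
    rw [hD0]
    positivity
  have hl7 : 0 < l2 ^ (7 / 8 : ℝ) := Real.rpow_pos_of_pos hl20 _
  refine ⟨D0 / l2 ^ (7 / 8 : ℝ) + C1 * C ^ (1 / 4 : ℝ), κ, by positivity, hκ0,
    fun s ρ1 ρ2 hCs hρ S hS => ?_⟩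
  have hρ0 : 0 < ρ1 := hρ.1
  have hρC : ρ1 ≤ C := hρ.2.2.1
  have hs0 : 0 < s := by
    by_contra h
    push Not at h
    nlinarith
  obtain ⟨L, hL⟩ : ∃ L : ℝ, L = Real.log (2 + s) := ⟨_, rfl⟩
  have hLl : l2 ≤ L := by
    rw [hl2, hL]
    exact Real.log_le_log (by norm_num) (by linarith)
  have hL0 : 0 < L := by linarith
  rw [← hL]
  obtain ⟨T, hT⟩ : ∃ T : ℝ, T = s ^ (3 * d) * ρ1 ^ κ := ⟨_, rfl⟩
  have hT0 : 0 ≤ T := by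
    rw [hT]
    positivity
  have hLL : l2 ^ (7 / 8 : ℝ) ≤ L ^ (7 / 8 : ℝ) := Real.rpow_le_rpow hl20.le hLl (by norm_num)
  have hlog : ∀ X : ℝ, 0 ≤ X → X ≤ X / l2 ^ (7 / 8 : ℝ) * L ^ (7 / 8 : ℝ) := by
    intro X hX
    rw [div_mul_eq_mul_div, le_div_iff₀ hl7]
    exact mul_le_mul_of_nonneg_left hLL hX
  have hre : (D0 / l2 ^ (7 / 8 : ℝ) + C1 * C ^ (1 / 4 : ℝ)) * s ^ (3 * d) * ρ1 ^ κ * L ^ (7 / 8 : ℝ) =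
      D0 / l2 ^ (7 / 8 : ℝ) * L ^ (7 / 8 : ℝ) * T + C1 * C ^ (1 / 4 : ℝ) * L ^ (7 / 8 : ℝ) * T := by
    rw [hT]
    ring
  rw [hre]
  have hg0 := hlog D0 hD00.le
  have hmain : ∀ X : ℝ, (S.card : ℝ) ≤ X * T → X ≤ D0 →
      (S.card : ℝ) ≤ D0 / l2 ^ (7 / 8 : ℝ) * L ^ (7 / 8 : ℝ) * T + C1 * C ^ (1 / 4 : ℝ) * L ^ (7 / 8 : ℝ) * T := by
    intro X hX hXD
    have g1 : X * T ≤ D0 / l2 ^ (7 / 8 : ℝ) * L ^ (7 / 8 : ℝ) * T :=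
      mul_le_mul_of_nonneg_right (hXD.trans hg0) hT0
    have g2 : 0 ≤ C1 * C ^ (1 / 4 : ℝ) * L ^ (7 / 8 : ℝ) * T := by positivity
    linarith
  have hpos1 : 0 ≤ C2 * s1 ^ (1 / 800 : ℝ) * C ^ (3 / 4 * (d : ℝ)) := by positivity
  have hpos2 : 0 ≤ C2 * C ^ (3 / 4 * (d : ℝ) - 1 / 4) := by positivity
  by_cases hss : s < s1
  · -- small `s`
    refine hmain (C2 * s1 ^ (1 / 800 : ℝ) * C ^ (3 / 4 * (d : ℝ))) ?_ (by rw [hD0]; linarith)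
    have g1 := hg s ρ1 ρ2 hCs hρ S hS
    have g2 : ρ1 ^ (3 / 4 * (d : ℝ)) ≤ C ^ (3 / 4 * (d : ℝ)) * ρ1 ^ κ :=
      cmai_pow hC hρ0 hρC hκ0.le (by nlinarith)
    have g3 : s ^ (1 / 800 : ℝ) ≤ s1 ^ (1 / 800 : ℝ) := Real.rpow_le_rpow hs0.le hss.le (by norm_num)
    calc (S.card : ℝ) ≤ C2 * s ^ (1 / 800 : ℝ) * s ^ (3 * d) * ρ1 ^ (3 / 4 * (d : ℝ)) := g1
      _ ≤ C2 * s1 ^ (1 / 800 : ℝ) * s ^ (3 * d) * (C ^ (3 / 4 * (d : ℝ)) * ρ1 ^ κ) := by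
          gcongr
      _ = _ := by
          rw [hT]
          ring
  push Not at hss
  have hs1' : 1 ≤ s := by linarith
  by_cases hth : ρ1 < s ^ (-(1 / 200) : ℝ)
  · refine hmain (C2 * C ^ (3 / 4 * (d : ℝ) - 1 / 4)) ?_ (by rw [hD0]; linarith)
    have g1 := hg s ρ1 ρ2 hCs hρ S hS
    have g2 : ρ1 ^ (3 / 4 * (d : ℝ) - 1 / 4) ≤ C ^ (3 / 4 * (d : ℝ) - 1 / 4) * ρ1 ^ κ :=
      cmai_pow hC hρ0 hρC hκ0.le (by nlinarith)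
    have g3 : s ^ (1 / 800 : ℝ) ≤ ρ1 ^ (-(1 / 4) : ℝ) := by
      have e1 : s ^ (1 / 800 : ℝ) = (s ^ (-(1 / 200) : ℝ)) ^ (-(1 / 4) : ℝ) := by
        rw [← Real.rpow_mul hs0.le]
        norm_num
      rw [e1]
      exact Real.rpow_le_rpow_of_nonpos hρ0 hth.le (by norm_num)
    have g4 : ρ1 ^ (-(1 / 4) : ℝ) * ρ1 ^ (3 / 4 * (d : ℝ)) = ρ1 ^ (3 / 4 * (d : ℝ) - 1 / 4) := by
      rw [← Real.rpow_add hρ0]
      congr 1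
      ring
    calc (S.card : ℝ) ≤ C2 * s ^ (1 / 800 : ℝ) * s ^ (3 * d) * ρ1 ^ (3 / 4 * (d : ℝ)) := g1
      _ ≤ C2 * ρ1 ^ (-(1 / 4) : ℝ) * s ^ (3 * d) * ρ1 ^ (3 / 4 * (d : ℝ)) := by gcongr
      _ = C2 * s ^ (3 * d) * ρ1 ^ (3 / 4 * (d : ℝ) - 1 / 4) := by
          rw [← g4]
          ring
      _ ≤ C2 * s ^ (3 * d) * (C ^ (3 / 4 * (d : ℝ) - 1 / 4) * ρ1 ^ κ) := by gcongr
      _ = _ := by
          rw [hT]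
          ring
  push Not at hth
  obtain ⟨Sa, hSa⟩ : ∃ Sa : Finset (𝓞 M × Blk (𝓞 M)), Sa = S.filter (fun x => ¬ Ndg s (tb x.2)) := ⟨_, rfl⟩
  obtain ⟨Sc, hSc⟩ : ∃ Sc : Finset (𝓞 M × Blk (𝓞 M)), Sc = S.filter (fun x => Ndg s (tb x.2)) := ⟨_, rfl⟩
  have hcard : (S.card : ℝ) = Sc.card + Sa.card := by
    rw [hSa, hSc]
    exact_mod_cast (Finset.card_filter_add_card_filter_not (s := S) (fun x => Ndg s (tb x.2))).symm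
  have ca : (Sa.card : ℝ) ≤ C3 * T := by
    have g1 := hd s ρ1 ρ2 hs1' hρ hth Sa (fun x hx => by
      rw [hSa, Finset.mem_filter] at hx
      exact ⟨hS x hx.1, hx.2⟩)
    have g2 := cmai_sav hs1' hth hκ0.le hκ1'
    calc (Sa.card : ℝ) ≤ C3 * s ^ (3 * d) * s ^ (-κ1) := g1
      _ ≤ C3 * s ^ (3 * d) * ρ1 ^ κ := by gcongr
      _ = _ := by
          rw [hT]
          ring
  have cc : (Sc.card : ℝ) ≤ C1 * C ^ (1 / 4 : ℝ) * L ^ (7 / 8 : ℝ) * T := by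
    have g1 := hb s ρ1 ρ2 hss hρ hth Sc (fun x hx => by
      rw [hSc, Finset.mem_filter] at hx
      exact ⟨hS x hx.1, hx.2⟩)
    rw [← hL] at g1
    have g3 : ρ1 ^ (1 / 4 : ℝ) ≤ C ^ (1 / 4 : ℝ) * ρ1 ^ κ := cmai_pow hC hρ0 hρC hκ0.le hκh
    calc (Sc.card : ℝ) ≤ C1 * s ^ (3 * d) * ρ1 ^ (1 / 4 : ℝ) * L ^ (7 / 8 : ℝ) := g1
      _ ≤ C1 * s ^ (3 * d) * (C ^ (1 / 4 : ℝ) * ρ1 ^ κ) * L ^ (7 / 8 : ℝ) := by gcongr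
      _ = _ := by
          rw [hT]
          ring
  have g6 : C3 * T ≤ D0 / l2 ^ (7 / 8 : ℝ) * L ^ (7 / 8 : ℝ) * T := by
    refine mul_le_mul_of_nonneg_right (le_trans ?_ hg0) hT0
    rw [hD0]
    linarith
  rw [hcard]
  linarith

end H38.AW
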